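import Mathlib

/-!
# Hermite polynomials and products of independent Gaussian variables
-/

set_option autoImplicit false
open MeasureTheory ProbabilityTheory

namespace Pool.Agent.H150K

/-- Probabilists' Hermite polynomials. -/
noncomputable def he : ℕ → ℝ → ℝ
  | 0, _ => 1
  | 1, x => x
  | (u + 2), x => x * he (u + 1) x - ((u : ℝ) + 1) * he u x

theorem he_mul (u : ℕ) (x : ℝ) : x * he u x = he (u + 1) x + (u : ℝ) * he (u - 1) x := by
  cases u with
  | zero => simp [he]
  | succ u => simp [he]

theorem he_deriv (u : ℕ) : (∀ x, HasDerivAt (he u) ((u : ℝ) * he (u - 1) x) x) ∧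
    (∀ x, HasDerivAt (he (u + 1)) (((u : ℝ) + 1) * he u x) x) := by
  induction u with
  | zero =>
    constructor
    · intro x
      have : he 0 = fun _ => (1 : ℝ) := by funext y; simp [he]
      rw [this]
      simpa using hasDerivAt_const x (1 : ℝ)
    · intro x
      have : he 1 = fun y => y := by funext y; simp [he]
      rw [this]
      have h := hasDerivAt_id' x
      refine h.congr_deriv ?_
      simp [he]
  | succ u ih =>
    refine ⟨?_, ?_⟩
    · intro x
      have := ih.2 x
      simpa using this
    · intro x
      have h1 := ih.2 x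
      have h2 := ih.1 x
      have h3 : he (u + 1 + 1) = fun y => y * he (u + 1) y - ((u : ℝ) + 1) * he u y := by
        funext y; simp [he]
      rw [h3]
      have h4 := ((hasDerivAt_id x).mul h1).sub (h2.const_mul ((u : ℝ) + 1))
      refine h4.congr_deriv ?_
      have h5 := he_mul u x
      simp only [id]
      push_cast
      have : he (u + 1) x = x * he u x - (u : ℝ) * he (u - 1) x := by linarith
      rw [this]
      ring

theorem integrable_pow (m : ℕ) : Integrable (fun x : ℝ => x ^ m) (gaussianReal 0 1) := by
  have h := (memLp_id_gaussianReal (μ := 0) (v := 1) (m : NNReal))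
  rcases Nat.eq_zero_or_pos m with h0 | h0
  · subst h0; simp
  have h2 : MemLp (fun x : ℝ => x ^ m) 1 (gaussianReal 0 1) := by
    have := h.norm_rpow (p := (m : NNReal)) (by simp; omega) (by simp)
    refine MemLp.of_le this (by fun_prop) ?_
    filter_upwards with x
    simp
  exact memLp_one_iff_integrable.1 h2

theorem integrable_pow_he (u : ℕ) : ∀ m : ℕ, Integrable (fun x : ℝ => x ^ m * he u x) (gaussianReal 0 1) := by
  induction u using Nat.strong_induction_on with
  | _ u ih =>
    intro m
    match u, ih with
    | 0, _ => simpa [he] using integrable_pow m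
    | 1, _ =>
      have := integrable_pow (m + 1)
      simpa [he, pow_succ] using this
    | (u + 2), ih =>
      have h1 := ih (u + 1) (by omega) (m + 1)
      have h2 := (ih u (by omega) m).const_mul ((u : ℝ) + 1)
      refine (h1.sub h2).congr ?_
      filter_upwards with x
      simp only [Pi.sub_apply, he]
      ring

theorem integrable_he (u : ℕ) : Integrable (he u) (gaussianReal 0 1) := by
  simpa using integrable_pow_he u 0

theorem integrable_iff' (f : ℝ → ℝ) :
    Integrable f (gaussianReal 0 1) ↔ Integrable (fun x => gaussianPDFReal 0 1 x * f x) volume := by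
  rw [gaussianReal_of_var_ne_zero _ one_ne_zero]
  rw [integrable_withDensity_iff_integrable_smul' (by fun_prop)]
  · simp only [toReal_gaussianPDF, smul_eq_mul]
  · exact Filter.Eventually.of_forall fun x => gaussianPDF_lt_top

theorem integral_he_succ (u : ℕ) : ∫ x, he (u + 1) x ∂(gaussianReal 0 1) = 0 := by
  rw [integral_gaussianReal_eq_integral_smul one_ne_zero]
  simp only [smul_eq_mul]
  have hd : ∀ x, HasDerivAt (fun x => -(gaussianPDFReal 0 1 x * he u x))
      (gaussianPDFReal 0 1 x * he (u + 1) x) x := by
    intro x
    have h1 : HasDerivAt (gaussianPDFReal 0 1) (-x * gaussianPDFReal 0 1 x) x := by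
      unfold gaussianPDFReal
      have h2 : HasDerivAt (fun x : ℝ => -(x - 0) ^ 2 / (2 * ((1 : NNReal) : ℝ))) (-x) x := by
        have := (((hasDerivAt_id x).sub_const 0).pow 2).neg.div_const (2 * ((1 : NNReal) : ℝ))
        refine this.congr_deriv ?_
        simp
        ring
      have h3 := (h2.exp).const_mul ((Real.sqrt (2 * Real.pi * ((1 : NNReal) : ℝ)))⁻¹)
      refine h3.congr_deriv ?_
      ring
    have h4 := (h1.mul ((he_deriv u).1 x)).neg
    refine h4.congr_deriv ?_
    have := he_mul u x
    have h5 : he (u + 1) x = x * he u x - (u : ℝ) * he (u - 1) x := by linarith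
    rw [h5]
    ring
  refine integral_eq_zero_of_hasDerivAt_of_integrable hd ?_ ?_
  · exact (integrable_iff' _).1 (integrable_he (u + 1))
  · exact ((integrable_iff' _).1 (integrable_he u)).neg

theorem integral_he (u : ℕ) : ∫ x, he u x ∂(gaussianReal 0 1) = if u = 0 then 1 else 0 := by
  cases u with
  | zero => simp [he]
  | succ u => simp [integral_he_succ u]

variable {ι : Type*} [Fintype ι] [DecidableEq ι]

/-- Product of Hermite polynomials. -/
noncomputable def HH (u : ι → ℕ) (Z : ι → ℝ) : ℝ := ∏ i, he (u i) (Z i)

/-- The law of a family of independent standard Gaussian variables. -/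
noncomputable abbrev gam (ι : Type*) [Fintype ι] : Measure (ι → ℝ) :=
  Measure.pi (fun _ : ι => gaussianReal 0 1)

theorem integrable_HH (u : ι → ℕ) : Integrable (HH u) (gam ι) := by
  unfold HH gam
  exact Integrable.fintype_prod (f := fun i x => he (u i) x) (fun i => integrable_he (u i))

theorem integral_HH (u : ι → ℕ) : ∫ Z, HH u Z ∂(gam ι) = if u = 0 then 1 else 0 := by
  unfold HH gam
  rw [integral_fintype_prod_eq_prod (f := fun i x => he (u i) x)]
  simp only [integral_he]
  by_cases h : u = 0
  · subst h; simp
  · rw [if_neg h]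
    obtain ⟨i, hi⟩ : ∃ i, u i ≠ 0 := by
      by_contra hc
      push Not at hc
      exact h (funext hc)
    exact Finset.prod_eq_zero (Finset.mem_univ i) (by simp [hi])

/-- add one at the coordinate `s` -/
def up (u : ι → ℕ) (s : ι) : ι → ℕ := Function.update u s (u s + 1)
/-- subtract one at the coordinate `s` -/
def dn (u : ι → ℕ) (s : ι) : ι → ℕ := Function.update u s (u s - 1)

theorem HH_update (u : ι → ℕ) (s : ι) (a : ℕ) (Z : ι → ℝ) :
    HH (Function.update u s a) Z = he a (Z s) * ∏ i ∈ Finset.univ.erase s, he (u i) (Z i) := by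
  unfold HH
  rw [← Finset.mul_prod_erase Finset.univ _ (Finset.mem_univ s)]
  simp only [Function.update_self]
  congr 1
  refine Finset.prod_congr rfl fun i hi => ?_
  rw [Function.update_of_ne (Finset.ne_of_mem_erase hi)]

theorem HH_mul (u : ι → ℕ) (s : ι) (Z : ι → ℝ) :
    Z s * HH u Z = HH (up u s) Z + (u s : ℝ) * HH (dn u s) Z := by
  unfold up dn
  rw [HH_update, HH_update]
  have : HH u Z = he (u s) (Z s) * ∏ i ∈ Finset.univ.erase s, he (u i) (Z i) := by
    unfold HH
    rw [← Finset.mul_prod_erase Finset.univ _ (Finset.mem_univ s)]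
  rw [this]
  have h := he_mul (u s) (Z s)
  calc Z s * (he (u s) (Z s) * ∏ i ∈ Finset.univ.erase s, he (u i) (Z i))
      = (Z s * he (u s) (Z s)) * ∏ i ∈ Finset.univ.erase s, he (u i) (Z i) := by ring
    _ = _ := by rw [h]; ring

end Pool.Agent.H150K
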