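import Pool.Agent.H150K.Gauss

/-!
# Moments of the Kikuchi matrix without signal

The mixed moments of Hermite products and of the entries of the powers of the Kikuchi matrix obey a
recursion with nonnegative coefficients. The number of the terms which remove an old face is bounded by
a linear function of the number of coincidences, and this gives a bound of the moments of high order
without loss of a logarithm.
-/

set_option autoImplicit false
open MeasureTheory ProbabilityTheory Finset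

namespace Pool.Agent.H150K

/-- The `ℓ`-element subsets of `Fin n`. -/
abbrev VV (n ℓ : ℕ) : Type := {K : Finset (Fin n) // K.card = ℓ}

/-- The Kikuchi matrix. -/
noncomputable def kik (n ℓ r : ℕ) (lam : ℝ) (Z : Finset (Fin n) → ℝ) : Matrix (VV n ℓ) (VV n ℓ) ℝ :=
  Matrix.of fun I J => if (symmDiff I.1 J.1).card = r then lam + Z (symmDiff I.1 J.1) else 0

/-- Mixed moments. -/
noncomputable def TT (n ℓ r m : ℕ) (u : Finset (Fin n) → ℕ) (I J : VV n ℓ) : ℝ :=
  ∫ Z, HH u Z * ((kik n ℓ r 0 Z) ^ m) I J ∂(gam (Finset (Fin n)))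

theorem HH_kik_succ (n ℓ r m : ℕ) (u : Finset (Fin n) → ℕ) (I J : VV n ℓ) (Z : Finset (Fin n) → ℝ) :
    HH u Z * ((kik n ℓ r 0 Z) ^ (m + 1)) I J
      = ∑ I' : VV n ℓ, if (symmDiff I.1 I'.1).card = r then
          (HH (up u (symmDiff I.1 I'.1)) Z * ((kik n ℓ r 0 Z) ^ m) I' J
            + (u (symmDiff I.1 I'.1) : ℝ) * (HH (dn u (symmDiff I.1 I'.1)) Z * ((kik n ℓ r 0 Z) ^ m) I' J))
          else 0 := by
  rw [pow_succ', Matrix.mul_apply, Finset.mul_sum]
  refine Finset.sum_congr rfl fun I' _ => ?_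
  simp only [kik, Matrix.of_apply]
  split_ifs with h
  · have := HH_mul u (symmDiff I.1 I'.1) Z
    calc _ = (Z (symmDiff I.1 I'.1) * HH u Z) * ((kik n ℓ r 0 Z) ^ m) I' J := by
          simp only [kik]; ring
      _ = _ := by rw [this]; simp only [kik]; ring
  · simp

theorem integrable_TT (n ℓ r m : ℕ) : ∀ (u : Finset (Fin n) → ℕ) (I J : VV n ℓ),
    Integrable (fun Z => HH u Z * ((kik n ℓ r 0 Z) ^ m) I J) (gam (Finset (Fin n))) := by
  induction m with
  | zero =>
    intro u I J
    simp only [pow_zero, Matrix.one_apply]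
    exact (integrable_HH u).mul_const _
  | succ m ih =>
    intro u I J
    simp only [HH_kik_succ]
    refine integrable_finsetSum _ fun I' _ => ?_
    split_ifs with h
    · exact (ih _ _ _).add ((ih _ _ _).const_mul _)
    · exact integrable_zero _ _ _

theorem TT_succ (n ℓ r m : ℕ) (u : Finset (Fin n) → ℕ) (I J : VV n ℓ) :
    TT n ℓ r (m + 1) u I J
      = ∑ I' : VV n ℓ, if (symmDiff I.1 I'.1).card = r then
          (TT n ℓ r m (up u (symmDiff I.1 I'.1)) I' J
            + (u (symmDiff I.1 I'.1) : ℝ) * TT n ℓ r m (dn u (symmDiff I.1 I'.1)) I' J)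
          else 0 := by
  unfold TT
  simp only [HH_kik_succ]
  rw [integral_finsetSum]
  · refine Finset.sum_congr rfl fun I' _ => ?_
    split_ifs with h
    · rw [integral_add (integrable_TT _ _ _ _ _ _ _) ((integrable_TT _ _ _ _ _ _ _).const_mul _),
        integral_const_mul]
    · simp
  · intro I' _
    split_ifs with h
    · exact (integrable_TT _ _ _ _ _ _ _).add ((integrable_TT _ _ _ _ _ _ _).const_mul _)
    · exact integrable_zero _ _ _

theorem TT_zero (n ℓ r : ℕ) (u : Finset (Fin n) → ℕ) (I J : VV n ℓ) :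
    TT n ℓ r 0 u I J = if u = 0 ∧ I = J then 1 else 0 := by
  unfold TT
  simp only [pow_zero, Matrix.one_apply]
  rw [integral_mul_const, integral_HH]
  by_cases h1 : u = 0 <;> by_cases h2 : I = J <;> simp [h1, h2]

/-- The size of an exponent. -/
def tot {ι : Type*} [Fintype ι] (u : ι → ℕ) : ℕ := ∑ i, u i

theorem tot_up {ι : Type*} [Fintype ι] [DecidableEq ι] (u : ι → ℕ) (s : ι) : tot (up u s) = tot u + 1 := by
  unfold tot up
  rw [Finset.sum_update_of_mem (Finset.mem_univ s)]
  have := Finset.add_sum_erase Finset.univ u (Finset.mem_univ s)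
  rw [← this, Finset.sdiff_singleton_eq_erase]
  ring

theorem tot_dn {ι : Type*} [Fintype ι] [DecidableEq ι] (u : ι → ℕ) (s : ι) (h : u s ≠ 0) :
    tot (dn u s) + 1 = tot u := by
  unfold tot dn
  rw [Finset.sum_update_of_mem (Finset.mem_univ s)]
  have := Finset.add_sum_erase Finset.univ u (Finset.mem_univ s)
  rw [← this, Finset.sdiff_singleton_eq_erase]
  omega

/-- The number of faces in the list `u` (with multiplicity) which contain the vertex `y`. -/
def inc {n : ℕ} (u : Finset (Fin n) → ℕ) (y : Fin n) : ℕ := ∑ S, if y ∈ S then u S else 0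

theorem inc_up {n : ℕ} (u : Finset (Fin n) → ℕ) (s : Finset (Fin n)) (y : Fin n) :
    inc (up u s) y = inc u y + if y ∈ s then 1 else 0 := by
  unfold inc up
  rw [← Finset.add_sum_erase Finset.univ _ (Finset.mem_univ s),
    ← Finset.add_sum_erase Finset.univ (fun S => if y ∈ S then u S else 0) (Finset.mem_univ s)]
  have : ∑ x ∈ Finset.univ.erase s, (if y ∈ x then Function.update u s (u s + 1) x else 0)
      = ∑ x ∈ Finset.univ.erase s, (if y ∈ x then u x else 0) := by
    refine Finset.sum_congr rfl fun x hx => ?_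
    rw [Function.update_of_ne (Finset.ne_of_mem_erase hx)]
  rw [this]
  simp only [Function.update_self]
  split_ifs <;> ring

theorem inc_dn {n : ℕ} (u : Finset (Fin n) → ℕ) (s : Finset (Fin n)) (y : Fin n) (h : u s ≠ 0) :
    inc (dn u s) y + (if y ∈ s then 1 else 0) = inc u y := by
  unfold inc dn
  rw [← Finset.add_sum_erase Finset.univ _ (Finset.mem_univ s),
    ← Finset.add_sum_erase Finset.univ (fun S => if y ∈ S then u S else 0) (Finset.mem_univ s)]
  have : ∑ x ∈ Finset.univ.erase s, (if y ∈ x then Function.update u s (u s - 1) x else 0)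
      = ∑ x ∈ Finset.univ.erase s, (if y ∈ x then u x else 0) := by
    refine Finset.sum_congr rfl fun x hx => ?_
    rw [Function.update_of_ne (Finset.ne_of_mem_erase hx)]
  rw [this]
  simp only [Function.update_self]
  split_ifs <;> omega

/-- The number of coincidences recorded in the counter `h`. -/
def exc {n : ℕ} (h : Fin n → ℕ) : ℕ := ∑ y, (h y - 2)

/-- The vertices seen. -/
def sup' {n : ℕ} (h : Fin n → ℕ) : Finset (Fin n) := Finset.univ.filter fun y => h y ≠ 0

/-- The counter after a new face. -/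
def adv {n : ℕ} (h : Fin n → ℕ) (T : Finset (Fin n)) : Fin n → ℕ := fun y => if y ∈ T then h y + 2 else h y

theorem exc_adv {n : ℕ} (h : Fin n → ℕ) (T : Finset (Fin n)) :
    exc (adv h T) ≤ exc h + 2 * (T ∩ sup' h).card := by
  have h1 : ∀ y, adv h T y - 2 ≤ (h y - 2) + 2 * (if y ∈ T ∩ sup' h then 1 else 0) := by
    intro y
    unfold adv sup'
    by_cases hy : y ∈ T <;> by_cases h0 : h y = 0 <;> simp [hy, h0] <;> omega
  calc exc (adv h T) ≤ ∑ y, ((h y - 2) + 2 * (if y ∈ T ∩ sup' h then 1 else 0)) :=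
        Finset.sum_le_sum fun y _ => h1 y
    _ = exc h + 2 * (T ∩ sup' h).card := by
        rw [Finset.sum_add_distrib, ← Finset.mul_sum, Finset.card_eq_sum_ones, ← Finset.sum_filter]
        congr 3
        ext y
        simp

theorem sup_adv {n : ℕ} (h : Fin n → ℕ) (T : Finset (Fin n)) :
    (sup' (adv h T)).card ≤ (sup' h).card + T.card := by
  have : sup' (adv h T) ⊆ sup' h ∪ T := by
    intro y hy
    unfold sup' adv at hy
    simp only [Finset.mem_filter, Finset.mem_univ, true_and] at hy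
    simp only [Finset.mem_union, sup', Finset.mem_filter, Finset.mem_univ, true_and]
    by_cases h0 : y ∈ T
    · exact Or.inr h0
    · rw [if_neg h0] at hy
      exact Or.inl hy
  exact (Finset.card_le_card this).trans (Finset.card_union_le _ _)

/-- The invariant. -/
def Inv {n ℓ : ℕ} (u : Finset (Fin n) → ℕ) (I : VV n ℓ) (h : Fin n → ℕ) : Prop :=
  ∀ y, inc u y + (if y ∈ I.1 then 1 else 0) ≤ h y

theorem Inv_up {n ℓ : ℕ} {u : Finset (Fin n) → ℕ} {I I' : VV n ℓ} {h : Fin n → ℕ} (hI : Inv u I h) :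
    Inv (up u (symmDiff I.1 I'.1)) I' (adv h (I'.1 \ I.1)) := by
  intro y
  have := hI y
  rw [inc_up]
  unfold adv
  by_cases h1 : y ∈ I.1 <;> by_cases h2 : y ∈ I'.1 <;>
    simp [h1, h2, Finset.mem_symmDiff] at this ⊢ <;> omega

theorem Inv_dn {n ℓ : ℕ} {u : Finset (Fin n) → ℕ} {I I' : VV n ℓ} {h : Fin n → ℕ} (hI : Inv u I h)
    (hu : u (symmDiff I.1 I'.1) ≠ 0) : Inv (dn u (symmDiff I.1 I'.1)) I' h := by
  intro y
  have := hI y
  have h3 := inc_dn u (symmDiff I.1 I'.1) y hu
  by_cases h1 : y ∈ I.1 <;> by_cases h2 : y ∈ I'.1 <;>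
    simp [h1, h2, Finset.mem_symmDiff] at this h3 ⊢ <;> omega

theorem card_sdiff_of_symmDiff {n ℓ k : ℕ} (I I' : VV n ℓ) (h : (symmDiff I.1 I'.1).card = 2 * k) :
    (I.1 \ I'.1).card = k ∧ (I'.1 \ I.1).card = k := by
  have h1 : (symmDiff I.1 I'.1).card = (I.1 \ I'.1).card + (I'.1 \ I.1).card := by
    rw [symmDiff_def]
    exact Finset.card_union_of_disjoint (disjoint_sdiff_sdiff)
  have h2 := Finset.card_sdiff_add_card_inter I.1 I'.1
  have h3 := Finset.card_sdiff_add_card_inter I'.1 I.1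
  rw [Finset.inter_comm] at h3
  have h4 := I.2
  have h5 := I'.2
  omega

/-- Neighbours -/
def nbr {n ℓ : ℕ} (k : ℕ) (I : VV n ℓ) : Finset (VV n ℓ) :=
  Finset.univ.filter fun I' => (symmDiff I.1 I'.1).card = 2 * k

/-- The number of ways to remove an old face. -/
theorem sum_old {n ℓ k : ℕ} {u : Finset (Fin n) → ℕ} {I : VV n ℓ} {h : Fin n → ℕ} (hI : Inv u I h) :
    k * ∑ I' ∈ nbr k I, u (symmDiff I.1 I'.1) ≤ ℓ + exc h := by
  have h1 : k * ∑ I' ∈ nbr k I, u (symmDiff I.1 I'.1)
      = ∑ y ∈ I.1, ∑ I' ∈ nbr k I, if y ∉ I'.1 then u (symmDiff I.1 I'.1) else 0 := by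
    rw [Finset.sum_comm, Finset.mul_sum]
    refine Finset.sum_congr rfl fun I' hI' => ?_
    rw [← Finset.sum_filter, Finset.sum_const, smul_eq_mul]
    congr 1
    have : (I.1.filter fun y => y ∉ I'.1) = I.1 \ I'.1 := by
      ext y; simp
    rw [this]
    exact ((card_sdiff_of_symmDiff I I' (by simpa [nbr] using hI')).1).symm
  rw [h1]
  have h2 : ∀ y ∈ I.1, (∑ I' ∈ nbr k I, if y ∉ I'.1 then u (symmDiff I.1 I'.1) else 0) ≤ inc u y := by
    intro y hy
    unfold inc
    rw [← Finset.sum_filter, ← Finset.sum_filter]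
    have hinj : Set.InjOn (fun I' : VV n ℓ => symmDiff I.1 I'.1)
        (((nbr k I).filter fun I' => y ∉ I'.1 : Finset (VV n ℓ)) : Set (VV n ℓ)) := by
      intro a _ b _ hab
      simp only at hab
      exact Subtype.ext (symmDiff_right_injective I.1 hab)
    rw [← Finset.sum_image (f := u) hinj]
    refine Finset.sum_le_sum_of_subset ?_
    intro S hS
    simp only [Finset.mem_image, Finset.mem_filter] at hS
    obtain ⟨a, ⟨_, ha⟩, rfl⟩ := hS
    simp [Finset.mem_symmDiff, hy, ha]
  have h3 : ∀ y ∈ I.1, inc u y ≤ 1 + (h y - 2) := by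
    intro y hy
    have := hI y
    rw [if_pos hy] at this
    omega
  calc _ ≤ ∑ y ∈ I.1, (1 + (h y - 2)) := Finset.sum_le_sum fun y hy => (h2 y hy).trans (h3 y hy)
    _ = ℓ + ∑ y ∈ I.1, (h y - 2) := by rw [Finset.sum_add_distrib]; simp [I.2]
    _ ≤ ℓ + exc h := by
        gcongr
        exact Finset.sum_le_sum_of_subset (Finset.subset_univ _)

/-- Sums over the neighbours. -/
theorem sum_nbr_le {n ℓ k : ℕ} (I : VV n ℓ) (f : Finset (Fin n) → ℝ) (hf : ∀ T, 0 ≤ f T) :
    ∑ I' ∈ nbr k I, f (I'.1 \ I.1) ≤ (ℓ.choose k : ℝ) * ∑ T ∈ Finset.powersetCard k Finset.univ, f T := by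
  have hinj : Set.InjOn (fun I' : VV n ℓ => ((I.1 \ I'.1, I'.1 \ I.1) : Finset (Fin n) × Finset (Fin n)))
      ((nbr k I : Finset (VV n ℓ)) : Set (VV n ℓ)) := by
    intro a _ b _ hab
    simp only [Prod.mk.injEq] at hab
    apply Subtype.ext
    have ha : a.1 = (I.1 \ (I.1 \ a.1)) ∪ (a.1 \ I.1) := by
      ext y; simp only [Finset.mem_union, Finset.mem_sdiff]; tauto
    have hb : b.1 = (I.1 \ (I.1 \ b.1)) ∪ (b.1 \ I.1) := by
      ext y; simp only [Finset.mem_union, Finset.mem_sdiff]; tauto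
    rw [ha, hb, hab.1, hab.2]
  have h1 : ∑ I' ∈ nbr k I, f (I'.1 \ I.1)
      = ∑ p ∈ (nbr k I).image (fun I' : VV n ℓ => ((I.1 \ I'.1, I'.1 \ I.1) : Finset (Fin n) × Finset (Fin n))),
        f p.2 := by
    rw [Finset.sum_image hinj]
  rw [h1]
  calc _ ≤ ∑ p ∈ (Finset.powersetCard k I.1) ×ˢ (Finset.powersetCard k Finset.univ), f p.2 := by
        refine Finset.sum_le_sum_of_subset_of_nonneg ?_ (fun _ _ _ => hf _)
        intro p hp
        simp only [Finset.mem_image] at hp
        obtain ⟨a, ha, rfl⟩ := hp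
        have := card_sdiff_of_symmDiff I a (by simpa [nbr] using ha)
        simp only [Finset.mem_product, Finset.mem_powersetCard]
        exact ⟨⟨Finset.sdiff_subset, this.1⟩, Finset.subset_univ _, this.2⟩
    _ = _ := by
        rw [Finset.sum_product]
        simp only [Finset.sum_const, Finset.card_powersetCard, I.2, nsmul_eq_mul]

theorem card_contain {n k : ℕ} (y : Fin n) :
    ((Finset.powersetCard (k + 1) (Finset.univ : Finset (Fin n))).filter fun T => y ∈ T).card ≤ n ^ k := by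
  have h1 : ((Finset.powersetCard (k + 1) (Finset.univ : Finset (Fin n))).filter fun T => y ∈ T).card
      ≤ (Finset.powersetCard k (Finset.univ : Finset (Fin n))).card := by
    refine Finset.card_le_card_of_injOn (fun T => T.erase y) ?_ ?_
    · intro T hT
      simp only [Finset.coe_filter, Finset.mem_powersetCard, Set.mem_ofPred_eq] at hT
      simp only [Finset.mem_coe, Finset.mem_powersetCard]
      refine ⟨Finset.subset_univ _, ?_⟩
      rw [Finset.card_erase_of_mem hT.2, hT.1.2]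
      rfl
    · intro T hT T' hT' he
      simp only [Finset.coe_filter, Finset.mem_powersetCard, Set.mem_ofPred_eq] at hT hT'
      simp only at he
      rw [← Finset.insert_erase hT.2, he, Finset.insert_erase hT'.2]
  refine h1.trans ?_
  rw [Finset.card_powersetCard, Finset.card_univ, Fintype.card_fin]
  exact Nat.choose_le_pow n k

/-- The sum over the new faces, with the weight of the coincidences. -/
theorem sum_new {n ℓ k : ℕ} (I : VV n ℓ) (V : Finset (Fin n)) (a : ℝ) (ha : 0 ≤ a) :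
    ∑ I' ∈ nbr (k + 1) I, Real.exp (a * ((I'.1 \ I.1) ∩ V).card)
      ≤ (ℓ.choose (k + 1) : ℝ) * ((n : ℝ) ^ (k + 1)
        + Real.exp (a * (k + 1 : ℕ)) * V.card * (n : ℝ) ^ k) := by
  refine (sum_nbr_le I (fun T => Real.exp (a * (T ∩ V).card)) (fun T => (Real.exp_pos _).le)).trans ?_
  gcongr
  have h1 : ∀ T ∈ Finset.powersetCard (k + 1) (Finset.univ : Finset (Fin n)),
      Real.exp (a * (T ∩ V).card) ≤ 1 + Real.exp (a * (k + 1 : ℕ)) * (T ∩ V).card := by
    intro T hT
    rw [Finset.mem_powersetCard] at hT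
    rcases Nat.eq_zero_or_pos (T ∩ V).card with h0 | h0
    · rw [h0]; simp
    · have h2 : ((T ∩ V).card : ℝ) ≤ (k + 1 : ℕ) := by
        rw [← hT.2]
        exact_mod_cast Finset.card_le_card Finset.inter_subset_left
      have h3 : (1 : ℝ) ≤ (T ∩ V).card := by exact_mod_cast h0
      have h4 : Real.exp (a * (T ∩ V).card) ≤ Real.exp (a * (k + 1 : ℕ)) :=
        Real.exp_le_exp.2 (mul_le_mul_of_nonneg_left h2 ha)
      have h5 := Real.exp_pos (a * (k + 1 : ℕ))
      nlinarith
  calc _ ≤ ∑ T ∈ Finset.powersetCard (k + 1) (Finset.univ : Finset (Fin n)),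
        (1 + Real.exp (a * (k + 1 : ℕ)) * (T ∩ V).card) := Finset.sum_le_sum h1
    _ = ((Finset.powersetCard (k + 1) (Finset.univ : Finset (Fin n))).card : ℝ)
        + Real.exp (a * (k + 1 : ℕ)) * ∑ T ∈ Finset.powersetCard (k + 1) (Finset.univ : Finset (Fin n)),
          ((T ∩ V).card : ℝ) := by
        rw [Finset.sum_add_distrib, ← Finset.mul_sum]
        simp
    _ ≤ (n : ℝ) ^ (k + 1) + Real.exp (a * (k + 1 : ℕ)) * (V.card * (n : ℝ) ^ k) := by
        gcongr
        · rw [Finset.card_powersetCard, Finset.card_univ, Fintype.card_fin]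
          exact_mod_cast Nat.choose_le_pow n (k + 1)
        · have h6 : ∑ T ∈ Finset.powersetCard (k + 1) (Finset.univ : Finset (Fin n)), (T ∩ V).card
              = ∑ y ∈ V, ((Finset.powersetCard (k + 1) (Finset.univ : Finset (Fin n))).filter
                  fun T => y ∈ T).card := by
            simp only [Finset.card_eq_sum_ones, Finset.sum_filter]
            rw [Finset.sum_comm]
            refine Finset.sum_congr rfl fun T _ => ?_
            rw [← Finset.sum_filter]
            congr 1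
            ext y
            simp [and_comm]
          have h7 : ∑ T ∈ Finset.powersetCard (k + 1) (Finset.univ : Finset (Fin n)), (T ∩ V).card
              ≤ V.card * n ^ k := by
            rw [h6]
            calc _ ≤ ∑ y ∈ V, n ^ k := Finset.sum_le_sum fun y _ => card_contain y
              _ = _ := by simp
          exact_mod_cast h7
    _ = _ := by ring

/-- **The main estimate of the mixed moments.** -/
theorem TT_bound (n ℓ k m0 vmax : ℕ) (hℓ : 0 < ℓ) (α Y : ℝ) (hα : 0 < α)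
    (hY : (ℓ.choose (k + 1) : ℝ) * ((n : ℝ) ^ (k + 1)
        + Real.exp (2 * m0 / ℓ * (k + 1 : ℕ)) * vmax * (n : ℝ) ^ k) * α⁻¹ + α * (ℓ / (k + 1 : ℕ)) ≤ Y)
    (m : ℕ) : m ≤ m0 → ∀ (u : Finset (Fin n) → ℕ) (I : VV n ℓ) (h : Fin n → ℕ), Inv u I h →
      (sup' h).card + (k + 1) * m ≤ vmax → ∀ J,
      TT n ℓ (2 * (k + 1)) m u I J ≤ (α⁻¹) ^ (tot u) * Y ^ m * Real.exp ((m : ℝ) / ℓ * exc h) := by
  have hℓ' : (0 : ℝ) < ℓ := by exact_mod_cast hℓ
  have hY0 : 0 ≤ Y := by
    refine le_trans ?_ hY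
    positivity
  induction m with
  | zero =>
    intro _ u I h _ _ J
    rw [TT_zero]
    split_ifs with hc
    · rw [hc.1]; simp [tot]
    · simp only [pow_zero, mul_one, Nat.cast_zero, zero_div, zero_mul, Real.exp_zero]
      positivity
  | succ m ih =>
    intro hm u I h hI hv J
    have ih := ih (by omega)
    rw [TT_succ, ← Finset.sum_filter]
    change ∑ I' ∈ nbr (k + 1) I, _ ≤ _
    rw [Finset.sum_add_distrib]
    set B : ℝ := (α⁻¹) ^ (tot u) * Y ^ m * Real.exp ((m : ℝ) / ℓ * exc h) with hB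
    have hB0 : 0 ≤ B := by positivity
    have hmm : (m : ℝ) ≤ m0 := by exact_mod_cast (by omega : m ≤ m0)
    -- new faces
    have hnew : ∑ I' ∈ nbr (k + 1) I, TT n ℓ (2 * (k + 1)) m (up u (symmDiff I.1 I'.1)) I' J
        ≤ B * ((ℓ.choose (k + 1) : ℝ) * ((n : ℝ) ^ (k + 1)
        + Real.exp (2 * m0 / ℓ * (k + 1 : ℕ)) * vmax * (n : ℝ) ^ k) * α⁻¹) := by
      have h1 : ∀ I' ∈ nbr (k + 1) I, TT n ℓ (2 * (k + 1)) m (up u (symmDiff I.1 I'.1)) I' J
          ≤ (B * α⁻¹) * Real.exp (2 * m / ℓ * ((I'.1 \ I.1) ∩ sup' h).card) := by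
        intro I' hI'
        have hc := card_sdiff_of_symmDiff (k := k + 1) I I' (by simpa [nbr] using hI')
        have h2 := ih (up u (symmDiff I.1 I'.1)) I' (adv h (I'.1 \ I.1)) (Inv_up hI) (by
          have := sup_adv h (I'.1 \ I.1)
          rw [hc.2] at this
          have h3 : (k + 1) * (m + 1) = (k + 1) * m + (k + 1) := by ring
          omega) J
        refine h2.trans ?_
        rw [tot_up, pow_succ]
        have h3 : (exc (adv h (I'.1 \ I.1)) : ℝ) ≤ exc h + 2 * ((I'.1 \ I.1) ∩ sup' h).card := by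
          exact_mod_cast exc_adv h (I'.1 \ I.1)
        have h4 : Real.exp ((m : ℝ) / ℓ * exc (adv h (I'.1 \ I.1)))
            ≤ Real.exp ((m : ℝ) / ℓ * exc h) * Real.exp (2 * m / ℓ * ((I'.1 \ I.1) ∩ sup' h).card) := by
          rw [← Real.exp_add]
          apply Real.exp_le_exp.2
          calc (m : ℝ) / ℓ * exc (adv h (I'.1 \ I.1)) ≤ (m : ℝ) / ℓ * (exc h + 2 * ((I'.1 \ I.1) ∩ sup' h).card) := by
                gcongr
            _ = _ := by ring
        calc (α⁻¹) ^ tot u * α⁻¹ * Y ^ m * Real.exp ((m : ℝ) / ℓ * exc (adv h (I'.1 \ I.1)))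
            ≤ (α⁻¹) ^ tot u * α⁻¹ * Y ^ m * (Real.exp ((m : ℝ) / ℓ * exc h)
              * Real.exp (2 * m / ℓ * ((I'.1 \ I.1) ∩ sup' h).card)) := by gcongr
          _ = _ := by rw [hB]; ring
      calc _ ≤ ∑ I' ∈ nbr (k + 1) I, (B * α⁻¹) * Real.exp (2 * m / ℓ * ((I'.1 \ I.1) ∩ sup' h).card) :=
            Finset.sum_le_sum h1
        _ = (B * α⁻¹) * ∑ I' ∈ nbr (k + 1) I, Real.exp (2 * m / ℓ * ((I'.1 \ I.1) ∩ sup' h).card) := by
            rw [Finset.mul_sum]
        _ ≤ (B * α⁻¹) * ((ℓ.choose (k + 1) : ℝ) * ((n : ℝ) ^ (k + 1)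
            + Real.exp (2 * m / ℓ * (k + 1 : ℕ)) * (sup' h).card * (n : ℝ) ^ k)) := by
            gcongr
            exact sum_new I (sup' h) _ (by positivity)
        _ ≤ (B * α⁻¹) * ((ℓ.choose (k + 1) : ℝ) * ((n : ℝ) ^ (k + 1)
            + Real.exp (2 * m0 / ℓ * (k + 1 : ℕ)) * vmax * (n : ℝ) ^ k)) := by
            gcongr
            have : (sup' h).card ≤ vmax := by
              have h3 : (k + 1) * (m + 1) = (k + 1) * m + (k + 1) := by ring
              omega
            exact_mod_cast this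
        _ = _ := by ring
    -- old faces
    have hold : ∑ I' ∈ nbr (k + 1) I, (u (symmDiff I.1 I'.1) : ℝ)
          * TT n ℓ (2 * (k + 1)) m (dn u (symmDiff I.1 I'.1)) I' J
        ≤ B * (α * (ℓ / (k + 1 : ℕ)) * Real.exp (1 / ℓ * exc h)) := by
      have h1 : ∀ I' ∈ nbr (k + 1) I, (u (symmDiff I.1 I'.1) : ℝ)
          * TT n ℓ (2 * (k + 1)) m (dn u (symmDiff I.1 I'.1)) I' J
          ≤ (B * α) * (u (symmDiff I.1 I'.1) : ℝ) := by
        intro I' hI'
        rcases Nat.eq_zero_or_pos (u (symmDiff I.1 I'.1)) with h0 | h0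
        · rw [h0]; simp
        have h2 := ih (dn u (symmDiff I.1 I'.1)) I' h (Inv_dn hI (by omega)) (by
          have h3 : (k + 1) * (m + 1) = (k + 1) * m + (k + 1) := by ring
          omega) J
        have h3 := tot_dn u (symmDiff I.1 I'.1) (by omega)
        have h4 : (α⁻¹) ^ tot (dn u (symmDiff I.1 I'.1)) = (α⁻¹) ^ tot u * α := by
          rw [← h3, pow_succ]
          field_simp
        rw [h4] at h2
        have h5 : (0 : ℝ) ≤ u (symmDiff I.1 I'.1) := by positivity
        calc _ ≤ (u (symmDiff I.1 I'.1) : ℝ) * ((α⁻¹) ^ tot u * α * Y ^ m * Real.exp ((m : ℝ) / ℓ * exc h)) := by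
              gcongr
          _ = _ := by rw [hB]; ring
      have h2 : (∑ I' ∈ nbr (k + 1) I, (u (symmDiff I.1 I'.1) : ℝ)) ≤ (ℓ + exc h) / (k + 1 : ℕ) := by
        rw [le_div_iff₀ (by positivity), mul_comm]
        exact_mod_cast sum_old (k := k + 1) hI
      have h3 : ((ℓ : ℝ) + exc h) / (k + 1 : ℕ) ≤ (ℓ / (k + 1 : ℕ)) * Real.exp (1 / ℓ * exc h) := by
        have h4 := Real.add_one_le_exp (1 / (ℓ : ℝ) * exc h)
        calc ((ℓ : ℝ) + exc h) / (k + 1 : ℕ) = (ℓ / (k + 1 : ℕ)) * (1 / (ℓ : ℝ) * exc h + 1) := by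
              field_simp
              ring
          _ ≤ _ := by gcongr
      calc _ ≤ ∑ I' ∈ nbr (k + 1) I, (B * α) * (u (symmDiff I.1 I'.1) : ℝ) := Finset.sum_le_sum h1
        _ = (B * α) * ∑ I' ∈ nbr (k + 1) I, (u (symmDiff I.1 I'.1) : ℝ) := by rw [Finset.mul_sum]
        _ ≤ (B * α) * ((ℓ / (k + 1 : ℕ)) * Real.exp (1 / ℓ * exc h)) := by
            gcongr
            exact h2.trans h3
        _ = _ := by ring
    have hexp : (1 : ℝ) ≤ Real.exp (1 / ℓ * exc h) := Real.one_le_exp (by positivity)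
    set E : ℝ := Real.exp (1 / ℓ * exc h) with hE
    set N1 : ℝ := (ℓ.choose (k + 1) : ℝ) * ((n : ℝ) ^ (k + 1)
        + Real.exp (2 * m0 / ℓ * (k + 1 : ℕ)) * vmax * (n : ℝ) ^ k) * α⁻¹ with hN1
    have hN0 : 0 ≤ N1 := by positivity
    calc _ ≤ B * N1 + B * (α * (ℓ / (k + 1 : ℕ)) * E) := add_le_add hnew hold
      _ ≤ B * (N1 * E) + B * (α * (ℓ / (k + 1 : ℕ)) * E) := by
          gcongr
          exact le_mul_of_one_le_right hN0 hexp
      _ = B * E * (N1 + α * (ℓ / (k + 1 : ℕ))) := by ring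
      _ ≤ B * E * Y := by gcongr
      _ = _ := by
          rw [hB, hE]
          have : Real.exp (((m + 1 : ℕ) : ℝ) / ℓ * exc h)
              = Real.exp ((m : ℝ) / ℓ * exc h) * Real.exp (1 / ℓ * exc h) := by
            rw [← Real.exp_add]
            congr 1
            push_cast
            ring
          rw [this, pow_succ]
          ring

end Pool.Agent.H150K
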