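import Pool.Agent.H150K.Top

/-!
# The noise without logarithm, and the ratio
-/

set_option autoImplicit false
open MeasureTheory ProbabilityTheory Finset Filter Topology

namespace Pool.Agent.H150K

theorem HH_zero {ι : Type*} [Fintype ι] (Z : ι → ℝ) : HH (0 : ι → ℕ) Z = 1 := by
  simp [HH, he]

theorem integrable_trace (n ℓ r m : ℕ) :
    Integrable (fun Z => Matrix.trace ((kik n ℓ r 0 Z) ^ m)) (gam (Finset (Fin n))) := by
  unfold Matrix.trace
  simp only [Matrix.diag_apply]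
  refine integrable_finsetSum _ fun I _ => ?_
  have := integrable_TT n ℓ r m 0 I I
  simpa [HH_zero] using this

theorem integral_trace (n ℓ r m : ℕ) :
    ∫ Z, Matrix.trace ((kik n ℓ r 0 Z) ^ m) ∂(gam (Finset (Fin n))) = ∑ I, TT n ℓ r m 0 I I := by
  unfold Matrix.trace TT
  simp only [Matrix.diag_apply, HH_zero, one_mul]
  rw [integral_finsetSum]
  intro I _
  have := integrable_TT n ℓ r m 0 I I
  simpa [HH_zero] using this

theorem card_VV (n ℓ : ℕ) : Fintype.card (VV n ℓ) = n.choose ℓ := by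
  rw [Fintype.card_subtype]
  have : (Finset.univ.filter fun K : Finset (Fin n) => K.card = ℓ)
      = Finset.powersetCard ℓ (Finset.univ : Finset (Fin n)) := by
    ext K; simp [Finset.mem_powersetCard]
  rw [this, Finset.card_powersetCard]
  simp

/-- The moment bound. -/
theorem trace_bound (n ℓ k m : ℕ) (hℓ : 0 < ℓ) (α Y : ℝ) (hα : 0 < α)
    (hY : (ℓ.choose (k + 1) : ℝ) * ((n : ℝ) ^ (k + 1)
        + Real.exp (2 * m / ℓ * (k + 1 : ℕ)) * (ℓ + (k + 1) * m : ℕ) * (n : ℝ) ^ k) * α⁻¹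
          + α * (ℓ / (k + 1 : ℕ)) ≤ Y) :
    ∫ Z, Matrix.trace ((kik n ℓ (2 * (k + 1)) 0 Z) ^ m) ∂(gam (Finset (Fin n)))
      ≤ (n : ℝ) ^ ℓ * Y ^ m := by
  have hY0 : 0 ≤ Y := by
    refine le_trans ?_ hY
    positivity
  rw [integral_trace]
  have h1 : ∀ I : VV n ℓ, TT n ℓ (2 * (k + 1)) m 0 I I ≤ Y ^ m := by
    intro I
    have h2 := TT_bound n ℓ k m (ℓ + (k + 1) * m) hℓ α Y hα hY m le_rfl 0 I
      (fun y => if y ∈ I.1 then 1 else 0) (by intro y; simp [inc]) (by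
        have : sup' (fun y => if y ∈ I.1 then 1 else 0) = I.1 := by
          ext y; simp [sup']
        rw [this, I.2]) I
    have h3 : exc (fun y => if y ∈ I.1 then 1 else 0) = 0 := by
      unfold exc
      refine Finset.sum_eq_zero fun y _ => ?_
      show (if y ∈ I.1 then 1 else 0) - 2 = 0
      split_ifs <;> rfl
    rw [h3] at h2
    simpa [tot] using h2
  calc _ ≤ ∑ _I : VV n ℓ, Y ^ m := Finset.sum_le_sum fun I _ => h1 I
    _ = (n.choose ℓ : ℝ) * Y ^ m := by rw [Finset.sum_const, Finset.card_univ, card_VV, nsmul_eq_mul]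
    _ ≤ _ := by
        gcongr
        exact_mod_cast Nat.choose_le_pow n ℓ

theorem meanTop_nonneg (n ℓ r : ℕ) (hr : 0 < r) (lam : ℝ) : 0 ≤ meanTop n ℓ r lam :=
  integral_nonneg fun Z => topEig_nonneg _ (kik_diag n ℓ r hr lam Z)

/-- The mean of the largest eigenvalue of the noise. -/
theorem meanTop_le (n ℓ k q : ℕ) (hℓ : 0 < ℓ) (α Y c : ℝ) (hα : 0 < α) (hc : 0 < c)
    (hY : (ℓ.choose (k + 1) : ℝ) * ((n : ℝ) ^ (k + 1)
        + Real.exp (2 * (2 ^ (q + 1) : ℕ) / ℓ * (k + 1 : ℕ)) * (ℓ + (k + 1) * 2 ^ (q + 1) : ℕ)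
          * (n : ℝ) ^ k) * α⁻¹ + α * (ℓ / (k + 1 : ℕ)) ≤ Y)
    (hcY : (n : ℝ) ^ ℓ * Y ^ (2 ^ (q + 1)) ≤ c ^ (2 ^ (q + 1))) :
    meanTop n ℓ (2 * (k + 1)) 0 ≤ c := by
  have h1 := trace_bound n ℓ k (2 ^ (q + 1)) hℓ α Y hα hY
  have h2 : ∀ Z : Finset (Fin n) → ℝ, topEig (kik n ℓ (2 * (k + 1)) 0 Z)
      ≤ c + c / (2 ^ (q + 1) : ℕ) * (Matrix.trace ((kik n ℓ (2 * (k + 1)) 0 Z) ^ (2 ^ (q + 1)))
        / c ^ (2 ^ (q + 1)) - 1) := by
    intro Z
    refine topEig_le_trace _ (kik_transpose _ _ _ _ _) q c hc ?_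
    have h3 : (2 : ℕ) ^ (q + 1) = 2 ^ q + 2 ^ q := by ring
    rw [h3, pow_add]
    unfold Matrix.trace
    refine Finset.sum_nonneg fun I _ => ?_
    rw [Matrix.diag_apply, Matrix.mul_apply]
    refine Finset.sum_nonneg fun J _ => ?_
    have h4 : ((kik n ℓ (2 * (k + 1)) 0 Z) ^ (2 ^ q)).transpose = (kik n ℓ (2 * (k + 1)) 0 Z) ^ (2 ^ q) := by
      rw [Matrix.transpose_pow, kik_transpose]
    have h5 : ((kik n ℓ (2 * (k + 1)) 0 Z) ^ (2 ^ q)) J I = ((kik n ℓ (2 * (k + 1)) 0 Z) ^ (2 ^ q)) I J := by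
      conv_rhs => rw [← h4]
      rfl
    rw [h5]
    exact mul_self_nonneg _
  have h3 : meanTop n ℓ (2 * (k + 1)) 0
      ≤ ∫ Z, (c + c / (2 ^ (q + 1) : ℕ) * (Matrix.trace ((kik n ℓ (2 * (k + 1)) 0 Z) ^ (2 ^ (q + 1)))
        / c ^ (2 ^ (q + 1)) - 1)) ∂(gam (Finset (Fin n))) := by
    refine integral_mono (integrable_topEig n ℓ (2 * (k + 1)) (by omega) 0) ?_ h2
    exact (integrable_const _).add ((((integrable_trace _ _ _ _).div_const _).sub
      (integrable_const _)).const_mul _)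
  refine h3.trans ?_
  have i1 : Integrable (fun Z => Matrix.trace ((kik n ℓ (2 * (k + 1)) 0 Z) ^ (2 ^ (q + 1)))
        / c ^ (2 ^ (q + 1)) - 1) (gam (Finset (Fin n))) :=
    ((integrable_trace _ _ _ _).div_const _).sub (integrable_const _)
  have i2 : Integrable (fun Z => c / (2 ^ (q + 1) : ℕ) * (Matrix.trace ((kik n ℓ (2 * (k + 1)) 0 Z)
        ^ (2 ^ (q + 1))) / c ^ (2 ^ (q + 1)) - 1)) (gam (Finset (Fin n))) := i1.const_mul _
  rw [integral_add (integrable_const _) i2, integral_const_mul, integral_sub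
      ((integrable_trace _ _ _ _).div_const _) (integrable_const _), integral_div]
  have hone : (gam (Finset (Fin n))).real Set.univ = 1 := by simp
  simp only [integral_const, hone, smul_eq_mul, one_mul]
  have h4 : (∫ Z, Matrix.trace ((kik n ℓ (2 * (k + 1)) 0 Z) ^ (2 ^ (q + 1))) ∂(gam (Finset (Fin n))))
      / c ^ (2 ^ (q + 1)) ≤ 1 := by
    rw [div_le_one (by positivity)]
    exact h1.trans hcY
  have h5 : 0 ≤ c / ((2 ^ (q + 1) : ℕ) : ℝ) := by positivity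
  nlinarith [mul_nonneg h5 (sub_nonneg.2 h4)]

/-- The noise is not zero. -/
theorem meanTop_pos (n ℓ k : ℕ) (hk : 0 < k) (hkℓ : k ≤ ℓ) (hn : ℓ + k ≤ n) :
    0 < meanTop n ℓ (2 * k) 0 := by
  obtain ⟨t, _, ht⟩ := Finset.exists_subset_card_eq (s := (Finset.univ : Finset (Fin n))) (n := ℓ)
    (by simp; omega)
  set I : VV n ℓ := ⟨t, ht⟩ with hI
  have hcard := card_nbr_ge (k := k) I
  have hpos : 0 < (nbr k I).card := by
    refine lt_of_lt_of_le ?_ hcard
    exact Nat.mul_pos (Nat.choose_pos hkℓ) (Nat.choose_pos (by omega))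
  obtain ⟨J, hJ⟩ := Finset.card_pos.1 hpos
  have hJ' : (symmDiff I.1 J.1).card = 2 * k := by simpa [nbr] using hJ
  have hIJ : I ≠ J := by
    intro h
    rw [← h] at hJ'
    simp at hJ'
    omega
  set S := symmDiff I.1 J.1 with hS
  have h1 : ∀ Z : Finset (Fin n) → ℝ, max (Z S) 0 ≤ topEig (kik n ℓ (2 * k) 0 Z) := by
    intro Z
    refine max_le ?_ (topEig_nonneg _ (kik_diag n ℓ (2 * k) (by omega) 0 Z))
    have hs2 : Real.sqrt 2 * Real.sqrt 2 = 2 := Real.mul_self_sqrt (by norm_num)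
    have hs0 : Real.sqrt 2 ≠ 0 := by positivity
    have h2 := le_topEig (kik n ℓ (2 * k) 0 Z)
      (v := Pi.single I (Real.sqrt 2)⁻¹ + Pi.single J (Real.sqrt 2)⁻¹) (by
        rw [dotProduct_add, add_dotProduct, add_dotProduct]
        simp only [single_dotProduct, Pi.single_eq_same, Pi.single_eq_of_ne hIJ,
          Pi.single_eq_of_ne hIJ.symm]
        rw [← mul_inv, hs2]
        norm_num)
    have h3 : dotProduct (Pi.single I (Real.sqrt 2)⁻¹ + Pi.single J (Real.sqrt 2)⁻¹)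
        (Matrix.mulVec (kik n ℓ (2 * k) 0 Z) (Pi.single I (Real.sqrt 2)⁻¹ + Pi.single J (Real.sqrt 2)⁻¹))
        = Z S := by
      rw [Matrix.mulVec_add, dotProduct_add, add_dotProduct, add_dotProduct]
      simp only [single_dotProduct, Matrix.mulVec_single, Pi.smul_apply, Matrix.col_apply,
        MulOpposite.smul_eq_mul_unop, MulOpposite.unop_op]
      rw [kik_diag n ℓ (2 * k) (by omega) 0 Z I, kik_diag n ℓ (2 * k) (by omega) 0 Z J]
      have e1 : kik n ℓ (2 * k) 0 Z I J = Z S := by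
        simp [kik, ← hS, hJ']
      have e2 : kik n ℓ (2 * k) 0 Z J I = Z S := by
        have := congrFun (congrFun (kik_transpose n ℓ (2 * k) 0 Z) J) I
        rw [Matrix.transpose_apply] at this
        rw [← this, e1]
      rw [e1, e2]
      have hs3 : (Real.sqrt 2)⁻¹ * (Real.sqrt 2)⁻¹ = 1 / 2 := by
        rw [← mul_inv, hs2, one_div]
      calc _ = 2 * (((Real.sqrt 2)⁻¹ * (Real.sqrt 2)⁻¹) * Z S) := by ring
        _ = _ := by rw [hs3]; ring
    rw [h3] at h2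
    exact h2
  have hint : Integrable (fun Z : Finset (Fin n) → ℝ => max (Z S) 0) (gam (Finset (Fin n))) :=
    (integrable_coord S).sup (integrable_zero _ _ _)
  have h2 : ∫ Z : Finset (Fin n) → ℝ, max (Z S) 0 ∂(gam (Finset (Fin n))) ≤ meanTop n ℓ (2 * k) 0 :=
    integral_mono hint (integrable_topEig n ℓ (2 * k) (by omega) 0) h1
  refine lt_of_lt_of_le ?_ h2
  have h3 : ∫ Z : Finset (Fin n) → ℝ, max (Z S) 0 ∂(gam (Finset (Fin n)))
      = ∫ x, max x 0 ∂(gaussianReal 0 1) := by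
    have h := (measurePreserving_eval (fun _ : Finset (Fin n) => gaussianReal 0 1) S)
    rw [← h.map_eq]
    rw [integral_map h.measurable.aemeasurable (by fun_prop)]
  rw [h3]
  have hint2 : Integrable (fun x : ℝ => max x 0) (gaussianReal 0 1) := by
    have h1 : Integrable (fun x : ℝ => x) (gaussianReal 0 1) := by simpa using integrable_pow 1
    exact h1.sup (integrable_zero _ _ _)
  rw [integral_pos_iff_support_of_nonneg (f := fun x : ℝ => max x 0)
    (fun x => (le_max_right x 0 : (0 : ℝ) ≤ max x 0)) hint2]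
  have hsup : Set.Ioi (0 : ℝ) ⊆ Function.support fun x : ℝ => max x 0 := by
    intro x hx
    simp only [Function.mem_support, ne_eq]
    rw [max_eq_left (le_of_lt hx)]
    exact ne_of_gt hx
  refine lt_of_lt_of_le ?_ (measure_mono hsup)
  rw [pos_iff_ne_zero]
  intro h0
  have := gaussianReal_absolutelyContinuous' 0 one_ne_zero h0
  simp at this

theorem key2 (D a b : ℝ) (ha : 0 < a) (hb : 0 < b) : D * (a / b) * (b / a) = D := by
  field_simp

theorem key3 (D a b : ℝ) (ha : 0 < a) (hb : 0 < b) : D * (a / b) * (b / a) * (b / a) = D * (b / a) := by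
  rw [key2 D a b ha hb]

/-- The final constant. -/
noncomputable def KC (k : ℕ) : ℝ := Real.exp (8 * (k + 1)) * (2 * Real.sqrt 2)

/-- **The noise.** For fixed `ℓ` and large `n` the mean of the largest eigenvalue of the Kikuchi matrix
without signal is at most `C (C(ℓ, k) ℓ / k)^(1/2) n^(k/2)`: there is no logarithm of `n`. -/
theorem noise (k ℓ : ℕ) (hℓ : 0 < ℓ) (hch : 0 < ℓ.choose (k + 1)) :
    ∀ᶠ n : ℕ in atTop, meanTop n ℓ (2 * (k + 1)) 0
      ≤ KC k * Real.sqrt ((ℓ.choose (k + 1) : ℝ) * (ℓ / (k + 1 : ℕ))) * Real.sqrt ((n : ℝ) ^ (k + 1)) := by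
  have hℓ' : (0 : ℝ) < ℓ := by exact_mod_cast hℓ
  have hch' : (0 : ℝ) < ℓ.choose (k + 1) := by exact_mod_cast hch
  have hk' : (0 : ℝ) < (k + 1 : ℕ) := by positivity
  -- growth facts
  have hlog : Tendsto (fun n : ℕ => Real.log (n : ℝ)) atTop atTop :=
    Real.tendsto_log_atTop.comp tendsto_natCast_atTop_atTop
  have hA : ∀ᶠ n : ℕ in atTop, 2 ≤ (ℓ : ℝ) * Real.log n / (4 * (k + 1 : ℕ)) := by
    have : Tendsto (fun n : ℕ => (ℓ : ℝ) * Real.log n / (4 * (k + 1 : ℕ))) atTop atTop := by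
      have h1 := (hlog.const_mul_atTop hℓ').atTop_div_const (show (0 : ℝ) < 4 * (k + 1 : ℕ) by positivity)
      exact h1
    exact this.eventually_ge_atTop 2
  have hB : ∀ᶠ n : ℕ in atTop, (ℓ : ℝ) + ℓ * Real.log n ≤ Real.sqrt n := by
    have h1 : (fun n : ℕ => (ℓ : ℝ) + ℓ * Real.log n) =o[atTop] fun n : ℕ => Real.sqrt (n : ℝ) := by
      have h2 : (fun x : ℝ => (ℓ : ℝ) + ℓ * Real.log x) =o[atTop] fun x : ℝ => Real.sqrt x := by
        have h3 : (fun x : ℝ => Real.log x) =o[atTop] fun x : ℝ => x ^ (1 / 2 : ℝ) :=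
          isLittleO_log_rpow_atTop (by norm_num)
        have h4 : (fun _ : ℝ => (ℓ : ℝ)) =o[atTop] fun x : ℝ => x ^ (1 / 2 : ℝ) := by
          rw [Asymptotics.isLittleO_const_left]
          right
          have := tendsto_rpow_atTop (y := (1 / 2 : ℝ)) (by norm_num)
          exact tendsto_norm_atTop_atTop.comp this
        have h5 := h4.add (h3.const_mul_left (ℓ : ℝ))
        simpa only [Real.sqrt_eq_rpow] using h5
      exact h2.comp_tendsto tendsto_natCast_atTop_atTop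
    have h2 := h1.bound (show (0 : ℝ) < 1 by norm_num)
    filter_upwards [h2] with n hn
    rw [one_mul, Real.norm_eq_abs, Real.norm_eq_abs, abs_of_nonneg (Real.sqrt_nonneg _)] at hn
    exact (le_abs_self _).trans hn
  filter_upwards [hA, hB, eventually_ge_atTop 1] with n hA hB hn1
  have hn0 : (0 : ℝ) < n := by exact_mod_cast hn1
  set x : ℝ := (ℓ : ℝ) * Real.log n / (4 * (k + 1 : ℕ)) with hx
  set Nn : ℕ := ⌊x⌋₊ with hNn
  have hN2 : 2 ≤ Nn := Nat.le_floor (by exact_mod_cast hA)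
  set p : ℕ := Nat.log 2 Nn with hp
  have hp1 : 1 ≤ p := by
    rw [hp]
    exact Nat.log_pos (by norm_num) hN2
  obtain ⟨q, hq⟩ : ∃ q, p = q + 1 := ⟨p - 1, by omega⟩
  have hNle : (2 : ℕ) ^ (q + 1) ≤ Nn := by
    rw [← hq]
    exact Nat.pow_log_le_self 2 (by omega)
  have hNgt : Nn < 2 ^ (q + 1) * 2 := by
    have := Nat.lt_pow_succ_log_self (b := 2) (by norm_num) Nn
    rw [← hp, hq] at this
    rw [pow_succ] at this
    exact this
  have hx0 : 0 ≤ x := by linarith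
  have hNx : (((2 : ℕ) ^ (q + 1) : ℕ) : ℝ) ≤ x := by
    have h1 : ((2 ^ (q + 1) : ℕ) : ℝ) ≤ Nn := by exact_mod_cast hNle
    exact h1.trans (Nat.floor_le hx0)
  have hxN : x ≤ 2 * (((2 : ℕ) ^ (q + 1) : ℕ) : ℝ) := by
    have h1 : x < Nn + 1 := Nat.lt_floor_add_one x
    have h2 : ((Nn + 1 : ℕ) : ℝ) ≤ (2 ^ (q + 1) * 2 : ℕ) := by exact_mod_cast hNgt
    push_cast at h2 ⊢
    linarith
  set N : ℕ := 2 ^ (q + 1) with hN
  have hNpos : (0 : ℝ) < N := by positivity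
  -- the exponential factor
  have hexp : Real.exp (2 * (N : ℕ) / ℓ * (k + 1 : ℕ)) ≤ Real.sqrt n := by
    have h1 : 2 * (N : ℝ) / ℓ * (k + 1 : ℕ) ≤ Real.log n / 2 := by
      calc 2 * (N : ℝ) / ℓ * (k + 1 : ℕ) ≤ 2 * x / ℓ * (k + 1 : ℕ) := by gcongr
        _ = Real.log n / 2 := by rw [hx]; field_simp; ring
    calc _ ≤ Real.exp (Real.log n / 2) := Real.exp_le_exp.2 h1
      _ = Real.sqrt n := by
          rw [Real.sqrt_eq_rpow, Real.rpow_def_of_pos hn0]
          congr 1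
          ring
  have hvm : ((ℓ + (k + 1) * N : ℕ) : ℝ) ≤ Real.sqrt n := by
    refine le_trans ?_ hB
    push_cast
    have h1 : ((k : ℝ) + 1) * N ≤ ℓ * Real.log n := by
      have h2 : ((k : ℝ) + 1) * N ≤ (k + 1) * x := by gcongr
      have h3 : ((k : ℝ) + 1) * x = ℓ * Real.log n / 4 := by
        rw [hx]; push_cast; field_simp
      have h4 : 0 ≤ (ℓ : ℝ) * Real.log n := by
        have : 0 ≤ Real.log (n : ℝ) := Real.log_natCast_nonneg n
        positivity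
      linarith
    linarith
  have hmain : Real.exp (2 * (N : ℕ) / ℓ * (k + 1 : ℕ)) * (ℓ + (k + 1) * N : ℕ) * (n : ℝ) ^ k
      ≤ (n : ℝ) ^ (k + 1) := by
    calc _ ≤ Real.sqrt n * Real.sqrt n * (n : ℝ) ^ k := by gcongr
      _ = _ := by rw [Real.mul_self_sqrt hn0.le, pow_succ]; ring
  set D : ℝ := 2 * (ℓ.choose (k + 1) : ℝ) * (n : ℝ) ^ (k + 1) with hD
  have hD0 : 0 < D := by positivity
  set α : ℝ := Real.sqrt (D * ((k + 1 : ℕ) / ℓ)) with hα
  have hα0 : 0 < α := by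
    rw [hα]
    positivity
  set Y : ℝ := 2 * Real.sqrt (D * (ℓ / (k + 1 : ℕ))) with hYdef
  have hY0 : 0 < Y := by rw [hYdef]; positivity
  have hαα : α * α = D * ((k + 1 : ℕ) / ℓ) := Real.mul_self_sqrt (by positivity)
  have hsq : Real.sqrt (D * (ℓ / (k + 1 : ℕ))) = α * (ℓ / (k + 1 : ℕ)) := by
    have h0 : α * (ℓ / (k + 1 : ℕ)) * (α * (ℓ / (k + 1 : ℕ))) = D * (ℓ / (k + 1 : ℕ)) := by
      calc α * (ℓ / (k + 1 : ℕ)) * (α * (ℓ / (k + 1 : ℕ)))
          = (α * α) * (ℓ / (k + 1 : ℕ)) * (ℓ / (k + 1 : ℕ)) := by ring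
        _ = _ := by rw [hαα]; exact key3 D _ _ hk' hℓ'
    rw [← h0, Real.sqrt_mul_self (by positivity)]
  have hDα : D * α⁻¹ = α * (ℓ / (k + 1 : ℕ)) := by
    have h0 : D = α * α * (ℓ / (k + 1 : ℕ)) := by
      rw [hαα]
      exact (key2 D _ _ hk' hℓ').symm
    have h1 : ∀ d a b : ℝ, 0 < a → d = a * a * b → d * a⁻¹ = a * b := by
      intro d a b ha hd
      rw [hd]
      field_simp
    exact h1 D α _ hα0 h0
  have hYcond : (ℓ.choose (k + 1) : ℝ) * ((n : ℝ) ^ (k + 1)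
        + Real.exp (2 * (N : ℕ) / ℓ * (k + 1 : ℕ)) * (ℓ + (k + 1) * N : ℕ)
          * (n : ℝ) ^ k) * α⁻¹ + α * (ℓ / (k + 1 : ℕ)) ≤ Y := by
    have h1 : (ℓ.choose (k + 1) : ℝ) * ((n : ℝ) ^ (k + 1)
        + Real.exp (2 * (N : ℕ) / ℓ * (k + 1 : ℕ)) * (ℓ + (k + 1) * N : ℕ) * (n : ℝ) ^ k) ≤ D := by
      rw [hD]
      nlinarith
    have h2 := mul_le_mul_of_nonneg_right h1 (inv_nonneg.2 hα0.le)
    have h3 : D * α⁻¹ + α * (ℓ / (k + 1 : ℕ)) = Y := by rw [hDα, hYdef, hsq]; ring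
    linarith
  set c : ℝ := Real.exp (8 * (k + 1)) * Y with hc
  have hc0 : 0 < c := by positivity
  have hcY : (n : ℝ) ^ ℓ * Y ^ N ≤ c ^ N := by
    have hce : c ^ N = Real.exp (8 * (k + 1)) ^ N * Y ^ N := mul_pow _ _ _
    rw [hce]
    have hgoal : (n : ℝ) ^ ℓ ≤ Real.exp (8 * (k + 1)) ^ N := by
      rw [← Real.exp_nat_mul]
      have h1 : (n : ℝ) ^ ℓ = Real.exp (ℓ * Real.log n) := by
        rw [Real.exp_nat_mul, Real.exp_log hn0]
      rw [h1]
      apply Real.exp_le_exp.2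
      have h2 : (ℓ : ℝ) * Real.log n = 4 * (k + 1 : ℕ) * x := by rw [hx]; field_simp
      rw [h2]
      have h3 : 4 * ((k + 1 : ℕ) : ℝ) * x ≤ 4 * ((k + 1 : ℕ) : ℝ) * (2 * (N : ℝ)) := by gcongr
      refine h3.trans (le_of_eq ?_)
      push_cast
      ring
    exact mul_le_mul_of_nonneg_right hgoal (pow_nonneg hY0.le N)
  have hfin := meanTop_le n ℓ k q hℓ α Y c hα0 hc0 hYcond hcY
  refine hfin.trans (le_of_eq ?_)
  rw [hc, hYdef, KC, hD]
  have h1 : 2 * (ℓ.choose (k + 1) : ℝ) * (n : ℝ) ^ (k + 1) * (ℓ / (k + 1 : ℕ))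
      = 2 * ((ℓ.choose (k + 1) : ℝ) * (ℓ / (k + 1 : ℕ))) * (n : ℝ) ^ (k + 1) := by ring
  rw [h1, Real.sqrt_mul (by positivity), Real.sqrt_mul (by positivity)]
  ring

end Pool.Agent.H150K
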