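import Pool.Agent.H150K.Lim

/-!
# The ratio of the means
-/

set_option autoImplicit false
open MeasureTheory ProbabilityTheory Finset Filter Topology

namespace Pool.Agent.H150K

theorem choose_ge (ℓ k : ℕ) (h : k + 1 ≤ ℓ) :
    ((ℓ : ℝ) / (k + 1 : ℕ)) ^ (k + 1) / (k + 1).factorial ≤ ℓ.choose (k + 1) := by
  have h1 : ((ℓ + 1 - (k + 1) : ℕ) ^ (k + 1) : ℝ) / (k + 1).factorial ≤ ℓ.choose (k + 1) :=
    Nat.pow_le_choose (α := ℝ) (k + 1) ℓ
  refine le_trans ?_ h1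
  gcongr
  rw [div_le_iff₀ (by positivity)]
  have h2 : ℓ ≤ (ℓ + 1 - (k + 1)) * (k + 1) := by
    obtain ⟨m, rfl⟩ := Nat.exists_eq_add_of_le h
    have : k + 1 + m + 1 - (k + 1) = m + 1 := by omega
    rw [this]
    nlinarith
  exact_mod_cast h2

theorem choose_ge' (n ℓ k : ℕ) (h : 2 * (ℓ + (k + 1)) ≤ n) :
    (n : ℝ) ^ (k + 1) / (2 ^ (k + 1) * (k + 1).factorial) ≤ (n - ℓ).choose (k + 1) := by
  have h1 : (((n - ℓ) + 1 - (k + 1) : ℕ) ^ (k + 1) : ℝ) ≤ (n - ℓ).choose (k + 1) * (k + 1).factorial := by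
    have := Nat.pow_le_choose (α := ℝ) (k + 1) (n - ℓ)
    rwa [div_le_iff₀ (by positivity)] at this
  have h2 : (n : ℝ) / 2 ≤ ((n - ℓ) + 1 - (k + 1) : ℕ) := by
    rw [div_le_iff₀ (by norm_num)]
    have : n ≤ ((n - ℓ) + 1 - (k + 1)) * 2 := by omega
    exact_mod_cast this
  rw [div_le_iff₀ (by positivity)]
  calc (n : ℝ) ^ (k + 1) = 2 ^ (k + 1) * ((n : ℝ) / 2) ^ (k + 1) := by
        rw [div_pow]; field_simp
    _ ≤ 2 ^ (k + 1) * (((n - ℓ) + 1 - (k + 1) : ℕ) : ℝ) ^ (k + 1) := by gcongr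
    _ ≤ 2 ^ (k + 1) * ((n - ℓ).choose (k + 1) * (k + 1).factorial) := by gcongr
    _ = _ := by ring

/-- The constant of the theorem. -/
noncomputable def KD (k : ℕ) : ℝ :=
  2 ^ (k + 2) * (k + 1).factorial * Real.sqrt ((k + 1).factorial) * KC k * Real.sqrt ((k + 1 : ℕ) : ℝ) ^ k

theorem KC_pos (k : ℕ) : 0 < KC k := by unfold KC; positivity

/-- **The ratio.** -/
theorem ratio_ge (k ℓ : ℕ) (hkℓ : k + 1 ≤ ℓ) (μ : ℝ)
    (hμ : KD k / Real.sqrt (ℓ : ℝ) ^ k ≤ μ) :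
    ∀ᶠ n : ℕ in atTop,
      2 ≤ meanTop n ℓ (2 * (k + 1)) (μ * (n : ℝ) ^ (-((2 * (k + 1) : ℕ) : ℝ) / 4))
        / meanTop n ℓ (2 * (k + 1)) 0 := by
  have hℓ : 0 < ℓ := by omega
  have hℓ' : (0 : ℝ) < ℓ := by exact_mod_cast hℓ
  have hch : 0 < ℓ.choose (k + 1) := Nat.choose_pos hkℓ
  have hKC := KC_pos k
  have hμ0 : 0 ≤ μ := le_trans (by unfold KD; positivity) hμ
  filter_upwards [noise k ℓ hℓ hch, eventually_ge_atTop (2 * (ℓ + (k + 1)))] with n hn hn2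
  have hn0 : (0 : ℝ) < n := by
    have : 0 < n := by omega
    exact_mod_cast this
  have hden : 0 < meanTop n ℓ (2 * (k + 1)) 0 := meanTop_pos n ℓ (k + 1) (by omega) hkℓ (by omega)
  rw [le_div_iff₀ hden]
  have hpow : (n : ℝ) ^ (-((2 * (k + 1) : ℕ) : ℝ) / 4) = (Real.sqrt ((n : ℝ) ^ (k + 1)))⁻¹ := by
    rw [Real.sqrt_eq_rpow, ← Real.rpow_natCast, ← Real.rpow_mul hn0.le, ← Real.rpow_neg hn0.le]
    congr 1
    push_cast
    ring
  have hsig := meanTop_ge n ℓ (k + 1) (by omega) (by omega)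
    (μ * (n : ℝ) ^ (-((2 * (k + 1) : ℕ) : ℝ) / 4)) (by positivity)
  refine le_trans ?_ hsig
  rw [hpow]
  set R : ℝ := Real.sqrt ((n : ℝ) ^ (k + 1)) with hR
  have hR0 : 0 < R := by rw [hR]; positivity
  have hRR : R * R = (n : ℝ) ^ (k + 1) := Real.mul_self_sqrt (by positivity)
  have hcn := choose_ge' n ℓ k hn2
  rw [← hRR] at hcn
  set C1 : ℝ := (ℓ.choose (k + 1) : ℝ) with hC1
  have hC1pos : 0 < C1 := by rw [hC1]; exact_mod_cast hch
  set F : ℝ := ((k + 1).factorial : ℝ) with hF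
  have hF0 : 0 < F := by rw [hF]; exact_mod_cast Nat.factorial_pos _
  -- reduce to an inequality without n
  have hkey : 2 * (KC k * Real.sqrt (C1 * (ℓ / (k + 1 : ℕ)))) ≤ μ * C1 / (2 ^ (k + 1) * F) := by
    set s : ℝ := Real.sqrt ((ℓ : ℝ) / (k + 1 : ℕ)) with hs
    have hs0 : 0 < s := by rw [hs]; positivity
    have hss : s * s = (ℓ : ℝ) / (k + 1 : ℕ) := Real.mul_self_sqrt (by positivity)
    set c : ℝ := Real.sqrt C1 with hc
    have hc0 : 0 < c := by rw [hc]; positivity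
    have hcc : c * c = C1 := Real.mul_self_sqrt hC1pos.le
    have hsF0 : 0 < Real.sqrt F := by positivity
    -- lower bound of c
    have hcge : s ^ (k + 1) / Real.sqrt F ≤ c := by
      rw [hc]
      apply Real.le_sqrt_of_sq_le
      have h1 := choose_ge ℓ k hkℓ
      rw [← hss] at h1
      calc (s ^ (k + 1) / Real.sqrt F) ^ 2 = (s * s) ^ (k + 1) / F := by
            rw [div_pow, Real.sq_sqrt hF0.le]
            congr 1
            rw [mul_pow]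
            ring
        _ ≤ C1 := h1
    have hμ1 : KD k / Real.sqrt (ℓ : ℝ) ^ k = 2 ^ (k + 2) * F * Real.sqrt F * KC k / s ^ k := by
      unfold KD
      rw [hs, Real.sqrt_div hℓ'.le, div_pow, ← hF]
      field_simp
    rw [hμ1] at hμ
    rw [Real.sqrt_mul hC1pos.le, ← hs, ← hc, ← hcc]
    rw [le_div_iff₀ (by positivity)]
    have h2 : 2 ^ (k + 2) * F * KC k * s ≤ μ * c := by
      calc 2 ^ (k + 2) * F * KC k * s
          = (2 ^ (k + 2) * F * Real.sqrt F * KC k / s ^ k) * (s ^ (k + 1) / Real.sqrt F) := by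
            rw [pow_succ s k]; field_simp
        _ ≤ μ * c := by gcongr
    calc 2 * (KC k * (c * s)) * (2 ^ (k + 1) * F) = c * (2 ^ (k + 2) * F * KC k * s) := by ring
      _ ≤ c * (μ * c) := by gcongr
      _ = μ * (c * c) := by ring
  calc 2 * meanTop n ℓ (2 * (k + 1)) 0
      ≤ 2 * (KC k * Real.sqrt (C1 * (ℓ / (k + 1 : ℕ))) * R) := by gcongr
    _ = (2 * (KC k * Real.sqrt (C1 * (ℓ / (k + 1 : ℕ))))) * R := by ring
    _ ≤ (μ * C1 / (2 ^ (k + 1) * F)) * R := by gcongr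
    _ = μ * R⁻¹ * (C1 * (R * R / (2 ^ (k + 1) * F))) := by field_simp
    _ ≤ μ * R⁻¹ * (C1 * ((n - ℓ).choose (k + 1) : ℝ)) := by gcongr

end Pool.Agent.H150K
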