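import Pool.Agent.H150K.Kik

/-!
# The largest eigenvalue: bounds by traces, measurability, test vectors
-/

set_option autoImplicit false
open MeasureTheory ProbabilityTheory Finset

namespace Pool.Agent.H150K

section det
variable {V : Type*} [Fintype V] [DecidableEq V]

/-- The largest eigenvalue of a symmetric matrix, by the variational principle. -/
noncomputable def topEig (M : Matrix V V ℝ) : ℝ :=
  sSup {t : ℝ | ∃ v : V → ℝ, dotProduct v v = 1 ∧ t = dotProduct v (Matrix.mulVec M v)}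

theorem abs_le_one_of_unit {v : V → ℝ} (hv : dotProduct v v = 1) (i : V) : |v i| ≤ 1 := by
  have h1 : v i * v i ≤ dotProduct v v :=
    Finset.single_le_sum (f := fun i => v i * v i) (fun j _ => mul_self_nonneg _) (Finset.mem_univ i)
  rw [hv] at h1
  exact abs_le_one_iff_mul_self_le_one.2 h1

theorem dot_le_sum (M : Matrix V V ℝ) {v : V → ℝ} (hv : dotProduct v v = 1) :
    dotProduct v (Matrix.mulVec M v) ≤ ∑ i, ∑ j, |M i j| := by
  unfold dotProduct Matrix.mulVec dotProduct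
  refine Finset.sum_le_sum fun i _ => ?_
  rw [Finset.mul_sum]
  refine Finset.sum_le_sum fun j _ => ?_
  have h1 := abs_le_one_of_unit hv i
  have h2 := abs_le_one_of_unit hv j
  calc v i * (M i j * v j) ≤ |v i * (M i j * v j)| := le_abs_self _
    _ = |v i| * |v j| * |M i j| := by rw [abs_mul, abs_mul]; ring
    _ ≤ 1 * 1 * |M i j| := by gcongr
    _ = |M i j| := by ring

theorem bdd (M : Matrix V V ℝ) :
    BddAbove {t : ℝ | ∃ v : V → ℝ, dotProduct v v = 1 ∧ t = dotProduct v (Matrix.mulVec M v)} := by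
  refine ⟨∑ i, ∑ j, |M i j|, ?_⟩
  rintro t ⟨v, hv, rfl⟩
  exact dot_le_sum M hv

theorem le_topEig (M : Matrix V V ℝ) {v : V → ℝ} (hv : dotProduct v v = 1) :
    dotProduct v (Matrix.mulVec M v) ≤ topEig M := le_csSup (bdd M) ⟨v, hv, rfl⟩

theorem topEig_le (M : Matrix V V ℝ) {a : ℝ} (ha : 0 ≤ a)
    (h : ∀ v : V → ℝ, dotProduct v v = 1 → dotProduct v (Matrix.mulVec M v) ≤ a) : topEig M ≤ a := by
  refine Real.sSup_le ?_ ha
  rintro t ⟨v, hv, rfl⟩
  exact h v hv

theorem diag_le_topEig (M : Matrix V V ℝ) (i : V) : M i i ≤ topEig M := by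
  have := le_topEig M (v := Pi.single i 1) (by simp)
  simpa using this

theorem topEig_nonneg (M : Matrix V V ℝ) (h0 : ∀ i, M i i = 0) : 0 ≤ topEig M := by
  rcases isEmpty_or_nonempty V with h | ⟨⟨i⟩⟩
  · unfold topEig
    have : {t : ℝ | ∃ v : V → ℝ, dotProduct v v = 1 ∧ t = dotProduct v (Matrix.mulVec M v)} = ∅ := by
      ext t
      simp [dotProduct]
    rw [this, Real.sSup_empty]
  · have := diag_le_topEig M i
    rwa [h0] at this

theorem topEig_lip (M N : Matrix V V ℝ) (h0 : ∀ i, N i i = 0) :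
    topEig M ≤ topEig N + ∑ i, ∑ j, |M i j - N i j| := by
  refine topEig_le M (add_nonneg (topEig_nonneg N h0) (by positivity)) fun v hv => ?_
  have h1 := dot_le_sum (M - N) hv
  have h2 := le_topEig N hv
  rw [Matrix.sub_mulVec, dotProduct_sub] at h1
  simp only [Matrix.sub_apply] at h1
  linarith

theorem topEig_abs_le (M : Matrix V V ℝ) (h0 : ∀ i, M i i = 0) : |topEig M| ≤ ∑ i, ∑ j, |M i j| := by
  rw [abs_of_nonneg (topEig_nonneg M h0)]
  exact topEig_le M (by positivity) fun v hv => dot_le_sum M hv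

/-- Cauchy-Schwarz -/
theorem sq_dot_le (A : Matrix V V ℝ) (hA : A.transpose = A) {v : V → ℝ} (hv : dotProduct v v = 1) :
    (dotProduct v (Matrix.mulVec A v)) ^ 2 ≤ dotProduct v (Matrix.mulVec (A * A) v) := by
  have h1 : dotProduct v (Matrix.mulVec (A * A) v)
      = dotProduct (Matrix.mulVec A v) (Matrix.mulVec A v) := by
    rw [← Matrix.mulVec_mulVec, Matrix.dotProduct_mulVec, ← Matrix.mulVec_transpose, hA]
  rw [h1]
  have h2 : (∑ i, v i * (Matrix.mulVec A v) i) ^ 2 ≤ (∑ i, v i ^ 2) * ∑ i, (Matrix.mulVec A v) i ^ 2 :=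
    Finset.sum_mul_sq_le_sq_mul_sq _ _ _
  have h3 : (∑ i, v i ^ 2) = 1 := by
    rw [← hv]; unfold dotProduct; simp only [pow_two]
  rw [h3, one_mul] at h2
  unfold dotProduct at *
  simpa only [pow_two] using h2

theorem dot_le_trace (B : Matrix V V ℝ) (hB : B.transpose = B) {v : V → ℝ} (hv : dotProduct v v = 1) :
    dotProduct v (Matrix.mulVec (B * B) v) ≤ Matrix.trace (B * B) := by
  have h1 : dotProduct v (Matrix.mulVec (B * B) v)
      = dotProduct (Matrix.mulVec B v) (Matrix.mulVec B v) := by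
    rw [← Matrix.mulVec_mulVec, Matrix.dotProduct_mulVec, ← Matrix.mulVec_transpose, hB]
  rw [h1]
  unfold Matrix.trace
  simp only [Matrix.diag_apply]
  unfold dotProduct
  refine Finset.sum_le_sum fun i _ => ?_
  have h2 : (∑ j, B i j * v j) ^ 2 ≤ (∑ j, B i j ^ 2) * ∑ j, v j ^ 2 :=
    Finset.sum_mul_sq_le_sq_mul_sq _ _ _
  have h3 : (∑ i, v i ^ 2) = 1 := by
    rw [← hv]; unfold dotProduct; simp only [pow_two]
  rw [h3, mul_one] at h2
  have h4 : (B * B) i i = ∑ j, B i j ^ 2 := by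
    rw [Matrix.mul_apply]
    refine Finset.sum_congr rfl fun j _ => ?_
    have : B j i = B i j := by
      conv_rhs => rw [← hB]
      rfl
    rw [this, pow_two]
  rw [h4]
  unfold Matrix.mulVec dotProduct
  simpa only [pow_two] using h2

theorem pow_two_pow_le (A : Matrix V V ℝ) (hA : A.transpose = A) {v : V → ℝ} (hv : dotProduct v v = 1)
    (q : ℕ) : (dotProduct v (Matrix.mulVec A v)) ^ (2 ^ (q + 1))
      ≤ dotProduct v (Matrix.mulVec (A ^ (2 ^ (q + 1))) v) := by
  induction q with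
  | zero => simpa [pow_two] using sq_dot_le A hA hv
  | succ q ih =>
    have hs : (A ^ (2 ^ (q + 1))).transpose = A ^ (2 ^ (q + 1)) := by
      rw [Matrix.transpose_pow, hA]
    have h1 := sq_dot_le (A ^ (2 ^ (q + 1))) hs hv
    rw [← pow_add] at h1
    have h2 : 2 ^ (q + 1) + 2 ^ (q + 1) = 2 ^ (q + 1 + 1) := by ring
    rw [h2] at h1
    refine le_trans ?_ h1
    have h3 : (dotProduct v (Matrix.mulVec A v)) ^ (2 ^ (q + 1 + 1))
        = ((dotProduct v (Matrix.mulVec A v)) ^ (2 ^ (q + 1))) ^ 2 := by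
      rw [← pow_mul, pow_succ 2 (q + 1)]
    rw [h3]
    have h4 : 0 ≤ (dotProduct v (Matrix.mulVec A v)) ^ (2 ^ (q + 1)) :=
      (Even.pow_nonneg ⟨2 ^ q, by ring⟩ _)
    gcongr

theorem dot_pow_le_trace (A : Matrix V V ℝ) (hA : A.transpose = A) {v : V → ℝ}
    (hv : dotProduct v v = 1) (q : ℕ) :
    (dotProduct v (Matrix.mulVec A v)) ^ (2 ^ (q + 1)) ≤ Matrix.trace (A ^ (2 ^ (q + 1))) := by
  have h1 := pow_two_pow_le A hA hv q
  have hs : (A ^ (2 ^ q)).transpose = A ^ (2 ^ q) := by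
    rw [Matrix.transpose_pow, hA]
  have h2 := dot_le_trace (A ^ (2 ^ q)) hs hv
  rw [← pow_add] at h2
  have h3 : 2 ^ q + 2 ^ q = 2 ^ (q + 1) := by ring
  rw [h3] at h2
  exact h1.trans h2

/-- A pointwise bound of the largest eigenvalue by a trace, linear in the trace. -/
theorem topEig_le_trace (A : Matrix V V ℝ) (hA : A.transpose = A) (q : ℕ) (c : ℝ) (hc : 0 < c)
    (h0 : 0 ≤ Matrix.trace (A ^ (2 ^ (q + 1)))) :
    topEig A ≤ c + c / (2 ^ (q + 1) : ℕ) * (Matrix.trace (A ^ (2 ^ (q + 1))) / c ^ (2 ^ (q + 1)) - 1) := by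
  set N : ℕ := 2 ^ (q + 1) with hN
  have hN1 : (1 : ℝ) ≤ N := by exact_mod_cast Nat.one_le_two_pow
  have hNpos : (0 : ℝ) < N := by linarith
  have hrhs : 0 ≤ c + c / (N : ℕ) * (Matrix.trace (A ^ N) / c ^ N - 1) := by
    have h1 : c / (N : ℝ) ≤ c := div_le_self hc.le hN1
    have h2 : 0 ≤ Matrix.trace (A ^ N) / c ^ N := by positivity
    have h3 : 0 ≤ c / (N : ℝ) := by positivity
    nlinarith [mul_nonneg h3 h2]
  refine topEig_le A hrhs fun v hv => ?_
  set t := dotProduct v (Matrix.mulVec A v) with ht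
  rcases le_or_gt t 0 with h | h
  · exact h.trans hrhs
  have h1 : t ^ N ≤ Matrix.trace (A ^ N) := dot_pow_le_trace A hA hv q
  have h2 : 1 + (N : ℝ) * (t / c - 1) ≤ (1 + (t / c - 1)) ^ N :=
    one_add_mul_le_pow (by have : 0 ≤ t / c := by positivity
                           linarith) N
  have h3 : (1 + (t / c - 1)) ^ N = t ^ N / c ^ N := by
    rw [← div_pow]; congr 1; ring
  rw [h3] at h2
  have h4 : t ^ N / c ^ N ≤ Matrix.trace (A ^ N) / c ^ N := by gcongr
  have h5 : (N : ℝ) * (t / c - 1) ≤ Matrix.trace (A ^ N) / c ^ N - 1 := by linarith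
  have h6 : c / N * ((N : ℝ) * (t / c - 1)) ≤ c / N * (Matrix.trace (A ^ N) / c ^ N - 1) := by gcongr
  have h7 : c / N * ((N : ℝ) * (t / c - 1)) = t - c := by field_simp
  linarith

end det

theorem kik_transpose (n ℓ r : ℕ) (lam : ℝ) (Z : Finset (Fin n) → ℝ) :
    (kik n ℓ r lam Z).transpose = kik n ℓ r lam Z := by
  ext I J
  simp [kik, Matrix.transpose_apply, symmDiff_comm]

theorem kik_diag (n ℓ r : ℕ) (hr : 0 < r) (lam : ℝ) (Z : Finset (Fin n) → ℝ) (I : VV n ℓ) :
    kik n ℓ r lam Z I I = 0 := by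
  simp [kik, hr.ne]

theorem kik_entry_lip (n ℓ r : ℕ) (lam : ℝ) (Z Z' : Finset (Fin n) → ℝ) (I J : VV n ℓ) :
    |kik n ℓ r lam Z I J - kik n ℓ r lam Z' I J| ≤ ‖Z - Z'‖ := by
  simp only [kik, Matrix.of_apply]
  split_ifs with h
  · have := norm_le_pi_norm (Z - Z') (symmDiff I.1 J.1)
    simpa [Real.norm_eq_abs] using this
  · simp

theorem topEig_kik_lip (n ℓ r : ℕ) (hr : 0 < r) (lam : ℝ) (Z Z' : Finset (Fin n) → ℝ) :
    topEig (kik n ℓ r lam Z) ≤ topEig (kik n ℓ r lam Z')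
      + (Fintype.card (VV n ℓ) : ℝ) * Fintype.card (VV n ℓ) * ‖Z - Z'‖ := by
  refine (topEig_lip _ _ (kik_diag n ℓ r hr lam Z')).trans ?_
  gcongr
  calc _ ≤ ∑ _I : VV n ℓ, ∑ _J : VV n ℓ, ‖Z - Z'‖ :=
        Finset.sum_le_sum fun I _ => Finset.sum_le_sum fun J _ => kik_entry_lip n ℓ r lam Z Z' I J
    _ = _ := by simp [mul_assoc]

theorem continuous_topEig_kik (n ℓ r : ℕ) (hr : 0 < r) (lam : ℝ) :
    Continuous fun Z : Finset (Fin n) → ℝ => topEig (kik n ℓ r lam Z) := by
  refine LipschitzWith.continuous (K := (Fintype.card (VV n ℓ) : NNReal) * Fintype.card (VV n ℓ)) ?_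
  refine LipschitzWith.of_dist_le_mul fun Z Z' => ?_
  rw [Real.dist_eq, dist_eq_norm, abs_le]
  have h1 := topEig_kik_lip n ℓ r hr lam Z Z'
  have h2 := topEig_kik_lip n ℓ r hr lam Z' Z
  rw [norm_sub_rev] at h2
  push_cast
  constructor <;> linarith

theorem integrable_coord {ι : Type*} [Fintype ι] (i : ι) : Integrable (fun Z : ι → ℝ => Z i) (gam ι) := by
  have h1 : Integrable (fun x : ℝ => x) (gaussianReal 0 1) := by simpa using integrable_pow 1
  exact (measurePreserving_eval (fun _ : ι => gaussianReal 0 1) i).integrable_comp_of_integrable h1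

theorem integral_coord {ι : Type*} [Fintype ι] (i : ι) : ∫ Z : ι → ℝ, Z i ∂(gam ι) = 0 := by
  have h := (measurePreserving_eval (fun _ : ι => gaussianReal 0 1) i)
  have h2 : ∫ Z : ι → ℝ, Z i ∂(gam ι) = ∫ x, x ∂(gaussianReal 0 1) := by
    rw [← h.map_eq]
    rw [integral_map h.measurable.aemeasurable (by fun_prop)]
  rw [h2, integral_id_gaussianReal]

theorem integrable_kik_entry (n ℓ r : ℕ) (lam : ℝ) (I J : VV n ℓ) :
    Integrable (fun Z => kik n ℓ r lam Z I J) (gam (Finset (Fin n))) := by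
  simp only [kik, Matrix.of_apply]
  split_ifs with h
  · exact (integrable_const _).add (integrable_coord _)
  · exact integrable_zero _ _ _

theorem integrable_topEig (n ℓ r : ℕ) (hr : 0 < r) (lam : ℝ) :
    Integrable (fun Z => topEig (kik n ℓ r lam Z)) (gam (Finset (Fin n))) := by
  have h1 : Integrable (fun Z => ∑ I : VV n ℓ, ∑ J : VV n ℓ, |kik n ℓ r lam Z I J|)
      (gam (Finset (Fin n))) :=
    integrable_finsetSum _ fun I _ => integrable_finsetSum _ fun J _ =>
      (integrable_kik_entry n ℓ r lam I J).abs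
  refine Integrable.mono' h1 (continuous_topEig_kik n ℓ r hr lam).aestronglyMeasurable ?_
  filter_upwards with Z
  exact topEig_abs_le _ (kik_diag n ℓ r hr lam Z)

/-- The mean of the largest eigenvalue of the Kikuchi matrix. -/
noncomputable def meanTop (n ℓ r : ℕ) (lam : ℝ) : ℝ :=
  ∫ Z, topEig (kik n ℓ r lam Z) ∂(gam (Finset (Fin n)))

theorem card_nbr_ge {n ℓ k : ℕ} (I : VV n ℓ) :
    ℓ.choose k * (n - ℓ).choose k ≤ (nbr k I).card := by
  have h1 : (Finset.powersetCard k I.1 ×ˢ Finset.powersetCard k (I.1)ᶜ).card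
      = ℓ.choose k * (n - ℓ).choose k := by
    rw [Finset.card_product, Finset.card_powersetCard, Finset.card_powersetCard, Finset.card_compl, I.2]
    simp
  rw [← h1]
  have key : ∀ p ∈ Finset.powersetCard k I.1 ×ˢ Finset.powersetCard k (I.1)ᶜ,
      ((I.1 \ p.1) ∪ p.2).card = ℓ ∧ symmDiff I.1 ((I.1 \ p.1) ∪ p.2) = p.1 ∪ p.2 ∧
        (p.1 ∪ p.2).card = 2 * k := by
    rintro ⟨T, T'⟩ hp
    simp only [Finset.mem_product, Finset.mem_powersetCard] at hp
    obtain ⟨⟨hT, hTc⟩, hT', hTc'⟩ := hp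
    have hd : Disjoint I.1 T' := by
      rw [Finset.disjoint_left]
      intro y hy hy'
      exact (Finset.mem_compl.1 (hT' hy')) hy
    refine ⟨?_, ?_, ?_⟩
    · rw [Finset.card_union_of_disjoint (hd.mono_left Finset.sdiff_subset),
        Finset.card_sdiff_of_subset hT, hTc, hTc', I.2]
      have := Finset.card_le_card hT
      rw [hTc, I.2] at this
      omega
    · ext y
      have h2 : y ∈ T → y ∈ I.1 := fun h => hT h
      have h3 : y ∈ T' → y ∉ I.1 := fun h => Finset.mem_compl.1 (hT' h)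
      simp only [Finset.mem_symmDiff, Finset.mem_union, Finset.mem_sdiff]
      tauto
    · rw [Finset.card_union_of_disjoint (hd.mono_left hT), hTc, hTc']
      ring
  have himg : ∀ p ∈ Finset.powersetCard k I.1 ×ˢ Finset.powersetCard k (I.1)ᶜ,
      (I.1 \ p.1) ∪ p.2 ∈ (nbr k I).image Subtype.val := by
    intro p hp
    obtain ⟨h1, h2, h3⟩ := key p hp
    rw [Finset.mem_image]
    refine ⟨⟨(I.1 \ p.1) ∪ p.2, h1⟩, ?_, rfl⟩
    simp only [nbr, Finset.mem_filter, Finset.mem_univ, true_and]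
    rw [h2, h3]
  have hinj : Set.InjOn (fun p : Finset (Fin n) × Finset (Fin n) => (I.1 \ p.1) ∪ p.2)
      ((Finset.powersetCard k I.1 ×ˢ Finset.powersetCard k (I.1)ᶜ : Finset _) : Set _) := by
    rintro ⟨T, T'⟩ hp ⟨S, S'⟩ hq he
    simp only at he
    simp only [Finset.coe_product, Set.mem_prod, Finset.mem_coe, Finset.mem_powersetCard] at hp hq
    obtain ⟨⟨hT, _⟩, hT', _⟩ := hp
    obtain ⟨⟨hS, _⟩, hS', _⟩ := hq
    have h2 : ∀ y, (y ∈ I.1 ∧ y ∉ T ∨ y ∈ T') ↔ (y ∈ I.1 ∧ y ∉ S ∨ y ∈ S') := by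
      intro y
      have := Finset.ext_iff.1 he y
      simpa only [Finset.mem_union, Finset.mem_sdiff] using this
    have e1 : T = S := by
      ext y
      have a1 := h2 y
      have a2 : y ∈ T → y ∈ I.1 := fun h => hT h
      have a3 : y ∈ T' → y ∉ I.1 := fun h => Finset.mem_compl.1 (hT' h)
      have a4 : y ∈ S → y ∈ I.1 := fun h => hS h
      have a5 : y ∈ S' → y ∉ I.1 := fun h => Finset.mem_compl.1 (hS' h)
      tauto
    have e2 : T' = S' := by
      ext y
      have a1 := h2 y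
      have a2 : y ∈ T → y ∈ I.1 := fun h => hT h
      have a3 : y ∈ T' → y ∉ I.1 := fun h => Finset.mem_compl.1 (hT' h)
      have a4 : y ∈ S → y ∈ I.1 := fun h => hS h
      have a5 : y ∈ S' → y ∉ I.1 := fun h => Finset.mem_compl.1 (hS' h)
      tauto
    rw [e1, e2]
  calc _ ≤ ((nbr k I).image Subtype.val).card := Finset.card_le_card_of_injOn _ himg hinj
    _ ≤ _ := Finset.card_image_le

/-- The signal: lower bound of the mean of the largest eigenvalue. -/
theorem meanTop_ge (n ℓ k : ℕ) (hk : 0 < k) (hn : ℓ ≤ n) (lam : ℝ) (hlam : 0 ≤ lam) :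
    lam * ((ℓ.choose k : ℝ) * (n - ℓ).choose k) ≤ meanTop n ℓ (2 * k) lam := by
  have hne : Nonempty (VV n ℓ) := by
    obtain ⟨t, _, ht⟩ := Finset.exists_subset_card_eq (s := (Finset.univ : Finset (Fin n))) (n := ℓ)
      (by simpa using hn)
    exact ⟨⟨t, ht⟩⟩
  set c : ℝ := (Fintype.card (VV n ℓ) : ℝ) with hc
  have hcpos : 0 < c := by rw [hc]; exact_mod_cast Fintype.card_pos
  have h1 : ∀ Z : Finset (Fin n) → ℝ,
      (1 / c) * ∑ I : VV n ℓ, ∑ J : VV n ℓ, kik n ℓ (2 * k) lam Z I J ≤ topEig (kik n ℓ (2 * k) lam Z) := by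
    intro Z
    have h2 := le_topEig (kik n ℓ (2 * k) lam Z) (v := fun _ => (Real.sqrt c)⁻¹) (by
      unfold dotProduct
      rw [Finset.sum_const, Finset.card_univ, nsmul_eq_mul, ← hc, ← mul_inv,
        Real.mul_self_sqrt hcpos.le]
      exact mul_inv_cancel₀ hcpos.ne')
    refine le_trans (le_of_eq ?_) h2
    unfold dotProduct Matrix.mulVec dotProduct
    rw [Finset.mul_sum]
    refine Finset.sum_congr rfl fun I _ => ?_
    rw [Finset.mul_sum, Finset.mul_sum]
    refine Finset.sum_congr rfl fun J _ => ?_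
    have h3 : (Real.sqrt c)⁻¹ * (Real.sqrt c)⁻¹ = 1 / c := by
      rw [← mul_inv, Real.mul_self_sqrt hcpos.le, one_div]
    rw [← h3]
    ring
  have h4 : ∫ Z, (1 / c) * ∑ I : VV n ℓ, ∑ J : VV n ℓ, kik n ℓ (2 * k) lam Z I J ∂(gam (Finset (Fin n)))
      = (1 / c) * ∑ I : VV n ℓ, ∑ J ∈ nbr k I, lam := by
    rw [integral_const_mul, integral_finsetSum]
    · congr 1
      refine Finset.sum_congr rfl fun I _ => ?_
      rw [integral_finsetSum]
      · unfold nbr
        rw [Finset.sum_filter]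
        refine Finset.sum_congr rfl fun J _ => ?_
        simp only [kik, Matrix.of_apply]
        split_ifs with h
        · rw [integral_add (integrable_const _) (integrable_coord _), integral_coord]
          simp
        · simp
      · intro J _
        exact integrable_kik_entry n ℓ (2 * k) lam I J
    · intro I _
      exact integrable_finsetSum _ fun J _ => integrable_kik_entry n ℓ (2 * k) lam I J
  have h5 : ∫ Z, (1 / c) * ∑ I : VV n ℓ, ∑ J : VV n ℓ, kik n ℓ (2 * k) lam Z I J ∂(gam (Finset (Fin n)))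
      ≤ meanTop n ℓ (2 * k) lam := by
    refine integral_mono ?_ (integrable_topEig n ℓ (2 * k) (by omega) lam) h1
    exact (integrable_finsetSum _ fun I _ => integrable_finsetSum _ fun J _ =>
      integrable_kik_entry n ℓ (2 * k) lam I J).const_mul _
  refine le_trans ?_ h5
  rw [h4]
  have h6 : ∑ I : VV n ℓ, (lam * ((ℓ.choose k : ℝ) * (n - ℓ).choose k)) ≤ ∑ I : VV n ℓ, ∑ J ∈ nbr k I, lam := by
    refine Finset.sum_le_sum fun I _ => ?_
    rw [Finset.sum_const, nsmul_eq_mul, mul_comm]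
    gcongr
    exact_mod_cast card_nbr_ge I
  rw [Finset.sum_const, Finset.card_univ, nsmul_eq_mul, ← hc] at h6
  calc lam * ((ℓ.choose k : ℝ) * (n - ℓ).choose k)
      = (1 / c) * (c * (lam * ((ℓ.choose k : ℝ) * (n - ℓ).choose k))) := by field_simp
    _ ≤ _ := by gcongr

end Pool.Agent.H150K
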